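import Pool.Agent.MP_eaae5b_nt.Integrals

open Finset MeasureTheory Set

namespace Pool.Agent.MP_eaae5b_nt

lemma abs_Err_le {a a' b' b q : ℝ} (ha : 1 ≤ a) (ha' : 1 ≤ a') (hb : 1 ≤ b) (hb' : 1 ≤ b')
    (hq : 1 ≤ q) (hj : |a' + b' - a - b| ≤ q) :
    |Err a a' b' b| ≤ 4420 * q ^ 2 / (a + b) ^ 2 := by
  obtain ⟨s, hsdef⟩ : ∃ s, s = (a + a' + b + b') / 2 := ⟨_, rfl⟩
  obtain ⟨j, hjdef⟩ : ∃ j, j = a' + b' - a - b := ⟨_, rfl⟩
  have hs1 : 1 ≤ s := by linarith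
  have hs0 : 0 < s := by linarith
  have hj' : |j| ≤ q := by rw [hjdef]; exact hj
  have hj2 : j ^ 2 ≤ q ^ 2 := by
    rw [← sq_abs]
    exact pow_le_pow_left₀ (abs_nonneg _) hj' 2
  have hn : a + b ≤ 2 * s := by linarith
  have hn' : a' + b' ≤ 2 * s := by linarith
  have hab0 : 0 ≤ a * b := by positivity
  have hab0' : 0 ≤ a' * b' := by positivity
  have hab : a * b ≤ s ^ 2 := by nlinarith [sq_nonneg (a - b)]
  have hab' : a' * b' ≤ s ^ 2 := by nlinarith [sq_nonneg (a' - b')]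
  have hX : |(a' * b') * (a + b) - (a * b) * (a' + b')| ≤ 2 * s ^ 3 := by
    have h1 : (a' * b') * (a + b) ≤ 2 * s ^ 3 := by
      calc (a' * b') * (a + b) ≤ s ^ 2 * (2 * s) := by gcongr
        _ = 2 * s ^ 3 := by ring
    have h2 : (a * b) * (a' + b') ≤ 2 * s ^ 3 := by
      calc (a * b) * (a' + b') ≤ s ^ 2 * (2 * s) := by gcongr
        _ = 2 * s ^ 3 := by ring
    have h3 : 0 ≤ (a' * b') * (a + b) := by positivity
    have h4 : 0 ≤ (a * b) * (a' + b') := by positivity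
    rw [abs_le]
    constructor <;> linarith
  unfold Err
  rw [← hsdef, ← hjdef]
  have hq0 : 0 < q := by linarith
  have T1 : |(385 / 2) * (j ^ 2 / 4) / s ^ 3| ≤ 49 * q ^ 2 / s ^ 2 := by
    rw [abs_of_nonneg (by positivity)]
    rw [div_le_div_iff₀ (by positivity) (by positivity)]
    have h5 : (385 / 2) * (j ^ 2 / 4) ≤ 49 * q ^ 2 := by nlinarith [sq_nonneg j]
    have h6 : s ^ 2 ≤ s ^ 3 := by nlinarith [sq_nonneg s]
    calc (385 / 2) * (j ^ 2 / 4) * s ^ 2 ≤ (49 * q ^ 2) * s ^ 3 := by gcongr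
      _ = _ := by ring
  have T2 : |168 * j * ((a' * b') * (a + b) - (a * b) * (a' + b')) / s ^ 5|
      ≤ 336 * q ^ 2 / s ^ 2 := by
    rw [abs_div, abs_mul, abs_mul, abs_of_nonneg (show (0:ℝ) ≤ 168 by norm_num),
      abs_of_nonneg (show (0:ℝ) ≤ s ^ 5 by positivity)]
    rw [div_le_div_iff₀ (by positivity) (by positivity)]
    calc 168 * |j| * |(a' * b') * (a + b) - (a * b) * (a' + b')| * s ^ 2
        ≤ 168 * q * (2 * s ^ 3) * s ^ 2 := by gcongr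
      _ = 336 * q * s ^ 5 := by ring
      _ ≤ 336 * (q ^ 2) * s ^ 5 := by
          gcongr
          nlinarith
  have T3 : |720 * j ^ 2 * (a * b) * (a' * b') / s ^ 7| ≤ 720 * q ^ 2 / s ^ 2 := by
    rw [abs_of_nonneg (by positivity)]
    rw [div_le_div_iff₀ (by positivity) (by positivity)]
    calc 720 * j ^ 2 * (a * b) * (a' * b') * s ^ 2
        ≤ 720 * q ^ 2 * (s ^ 2) * (s ^ 2) * s ^ 2 := by gcongr
      _ = 720 * q ^ 2 * s ^ 6 := by ring
      _ ≤ 720 * q ^ 2 * s ^ 7 := by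
          have := pow_le_pow_right₀ hs1 (show 6 ≤ 7 by norm_num)
          gcongr
  have h7 : s ^ 2 ≥ (a + b) ^ 2 / 4 := by
    have : (a + b) / 2 ≤ s := by linarith
    have h8 : 0 ≤ (a + b) / 2 := by positivity
    nlinarith
  have h8 : 1105 * q ^ 2 / s ^ 2 ≤ 4420 * q ^ 2 / (a + b) ^ 2 := by
    rw [div_le_div_iff₀ (by positivity) (by positivity)]
    nlinarith [sq_nonneg q, mul_le_mul_of_nonneg_left h7 (show (0:ℝ) ≤ 4 * (1105 * q ^ 2) by positivity)]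
  refine le_trans ?_ h8
  have e : 1105 * q ^ 2 / s ^ 2 = 49 * q ^ 2 / s ^ 2 + 336 * q ^ 2 / s ^ 2 + 720 * q ^ 2 / s ^ 2 := by
    ring
  rw [e]
  rw [abs_le] at T1 T2 T3 ⊢
  have e1 : -(385 / 2) * (j ^ 2 / 4) / s ^ 3 = -((385 / 2) * (j ^ 2 / 4) / s ^ 3) := by ring
  rw [e1]
  constructor <;> linarith [T1.1, T1.2, T2.1, T2.2, T3.1, T3.2]

lemma Err_zero {a a' b' b : ℝ} (h : a' + b' = a + b) : Err a a' b' b = 0 := by
  unfold Err
  have : a' + b' - a - b = 0 := by linarith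
  rw [this]
  ring

end Pool.Agent.MP_eaae5b_nt
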