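import Pool.Agent.MP_eaae5b_nt.TChannel

open Finset

namespace Pool.Agent.MP_eaae5b_nt

lemma sum_Ico_inv_sq_le (a b : ℕ) (ha : 1 ≤ a) : ∑ d ∈ Ico a b, ((d:ℝ) ^ 2)⁻¹ ≤ 2 := by
  have h := sum_Ioo_inv_sq_le (α := ℝ) 0 b
  refine le_trans ?_ (le_trans h (by norm_num))
  apply sum_le_sum_of_subset_of_nonneg
  · intro d hd
    rw [Finset.mem_Ioo]
    rw [Finset.mem_Ico] at hd
    omega
  · intro i _ _
    positivity

lemma sum_Ico_inv_le (a b N : ℕ) (ha : 1 ≤ a) (hb : b ≤ N + 1) :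
    ∑ d ∈ Ico a b, ((d:ℝ))⁻¹ ≤ 1 + Real.log N := by
  have h := harmonic_le_one_add_log N
  refine le_trans ?_ h
  unfold harmonic
  push_cast
  calc ∑ d ∈ Ico a b, ((d:ℝ))⁻¹ ≤ ∑ d ∈ Ico 1 (N + 1), ((d:ℝ))⁻¹ := by
        apply sum_le_sum_of_subset_of_nonneg
        · exact Finset.Ico_subset_Ico ha hb
        · intro i _ _
          positivity
    _ = ∑ x ∈ range N, ((x:ℝ) + 1)⁻¹ := by
        rw [Finset.sum_Ico_eq_sum_range]
        apply sum_congr rfl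
        intro x _
        push_cast
        rw [add_comm]

lemma variance_le (q : ℕ) (hq : 0 < q) (g : ℕ → ℝ) (k K : ℝ)
    (hg : ∀ i < q, k ≤ g i ∧ g i ≤ K) :
    (1 / (q:ℝ)) * ∑ i ∈ range q, g i ^ 2 - ((1 / (q:ℝ)) * ∑ i ∈ range q, g i) ^ 2
      ≤ ((K - k) / 2) ^ 2 := by
  have hq' : (0:ℝ) < q := by exact_mod_cast hq
  set M := (1 / (q:ℝ)) * ∑ i ∈ range q, g i with hM
  have h1 : ∑ i ∈ range q, g i = q * M := by rw [hM]; field_simp
  have h2 : ∑ i ∈ range q, (g i - (k + K) / 2) ^ 2 ≤ q * ((K - k) / 2) ^ 2 := by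
    calc ∑ i ∈ range q, (g i - (k + K) / 2) ^ 2 ≤ ∑ i ∈ range q, ((K - k) / 2) ^ 2 := by
          apply sum_le_sum
          intro i hi
          have := hg i (mem_range.mp hi)
          apply sq_le_sq'
          · linarith [this.1]
          · linarith [this.2]
      _ = _ := by simp
  have h3 : ∑ i ∈ range q, (g i - (k + K) / 2) ^ 2
      = ∑ i ∈ range q, g i ^ 2 - (k + K) * ∑ i ∈ range q, g i + q * ((k + K) / 2) ^ 2 := by
    rw [mul_sum, ← sum_sub_distrib]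
    have : (q:ℝ) * ((k + K) / 2) ^ 2 = ∑ i ∈ range q, ((k + K) / 2) ^ 2 := by simp
    rw [this, ← sum_add_distrib]
    apply sum_congr rfl
    intro i _
    ring
  rw [h3, h1] at h2
  have h4 : (1 / (q:ℝ)) * ∑ i ∈ range q, g i ^ 2
      ≤ (1 / (q:ℝ)) * (q * ((K - k) / 2) ^ 2 + (k + K) * (q * M) - q * ((k + K) / 2) ^ 2) := by
    apply mul_le_mul_of_nonneg_left _ (by positivity)
    linarith
  have h5 : (1 / (q:ℝ)) * (q * ((K - k) / 2) ^ 2 + (k + K) * (q * M) - q * ((k + K) / 2) ^ 2)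
      = ((K - k) / 2) ^ 2 + (k + K) * M - ((k + K) / 2) ^ 2 := by
    field_simp
  rw [h5] at h4
  nlinarith [sq_nonneg (M - (k + K) / 2)]

theorem schannel (r : ℕ → ℝ) (q N n₁ : ℕ) (k K B : ℝ) (hq : 0 < q) (hn₁ : 1 ≤ n₁)
    (hr0 : ∀ n, 0 ≤ r n) (hB : ∀ n, r n ≤ B)
    (hgood : ∀ n, n₁ ≤ n → n ≤ N → k ≤ r n ∧ r n ≤ K)
    (hN : n₁ + 2 * q ≤ N) :
    ∑ n ∈ Ico 1 (2 * N + 1), r n ^ 2 / n
      - (1 / (q:ℝ) ^ 2) * ∑ i ∈ range q, ∑ j ∈ range q,
          ∑ n ∈ Ico 1 (2 * N + 1), ∑ n' ∈ Ico 1 (2 * N + 1),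
            (if n + j = n' + i then r n * r n' * (2 / ((n:ℝ) + n')) else 0)
    ≤ ((K - k) / 2) ^ 2 * (1 + Real.log N) + (B ^ 2 * (n₁ + q) + 3 * B ^ 2 + 2 * q * K ^ 2) := by
  have hq' : (0:ℝ) < q := by exact_mod_cast hq
  have hN' : (0:ℝ) < N := by
    have : 0 < N := by omega
    exact_mod_cast this
  have hB0 : 0 ≤ B := le_trans (hr0 0) (hB 0)
  have hr2 : ∀ n, r n ^ 2 ≤ B ^ 2 := fun n => pow_le_pow_left₀ (hr0 n) (hB n) 2
  set D := Ico n₁ (N + 1 - q) with hD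
  -- first sum
  have hsplit : ∑ n ∈ Ico 1 (2 * N + 1), r n ^ 2 / n
      = ∑ n ∈ Ico 1 (n₁ + q), r n ^ 2 / n + ∑ n ∈ Ico (n₁ + q) (N + 1 - q), r n ^ 2 / n
        + ∑ n ∈ Ico (N + 1 - q) (2 * N + 1), r n ^ 2 / n := by
    rw [Finset.sum_Ico_consecutive _ (by omega) (by omega),
      Finset.sum_Ico_consecutive _ (by omega) (by omega)]
  have hfirst : ∑ n ∈ Ico 1 (n₁ + q), r n ^ 2 / n ≤ B ^ 2 * (n₁ + q) := by
    calc ∑ n ∈ Ico 1 (n₁ + q), r n ^ 2 / n ≤ ∑ n ∈ Ico 1 (n₁ + q), B ^ 2 := by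
          apply sum_le_sum
          intro n hn
          rw [Finset.mem_Ico] at hn
          have hn1 : (1:ℝ) ≤ n := by exact_mod_cast hn.1
          rw [div_le_iff₀ (by positivity)]
          calc r n ^ 2 ≤ B ^ 2 := hr2 n
            _ = B ^ 2 * 1 := by ring
            _ ≤ B ^ 2 * n := by gcongr
      _ = (n₁ + q - 1 : ℕ) * B ^ 2 := by simp
      _ ≤ ((n₁ + q : ℕ) : ℝ) * B ^ 2 := by
          gcongr
          omega
      _ = _ := by push_cast; ring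
  have hthird : ∑ n ∈ Ico (N + 1 - q) (2 * N + 1), r n ^ 2 / n ≤ 3 * B ^ 2 := by
    calc ∑ n ∈ Ico (N + 1 - q) (2 * N + 1), r n ^ 2 / n
        ≤ ∑ n ∈ Ico (N + 1 - q) (2 * N + 1), B ^ 2 * (2 / N) := by
          apply sum_le_sum
          intro n hn
          rw [Finset.mem_Ico] at hn
          have hn1 : N ≤ 2 * n := by omega
          have hn2 : (N:ℝ) ≤ 2 * n := by exact_mod_cast hn1
          have hn0 : (0:ℝ) < n := by linarith
          rw [div_eq_mul_inv]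
          apply mul_le_mul (hr2 n) _ (by positivity) (by positivity)
          rw [inv_le_comm₀ hn0 (by positivity)]
          rw [inv_div]
          linarith
      _ = (2 * N + 1 - (N + 1 - q) : ℕ) * (B ^ 2 * (2 / N)) := by simp
      _ ≤ ((3 / 2) * N) * (B ^ 2 * (2 / N)) := by
          apply mul_le_mul_of_nonneg_right _ (by positivity)
          have h1 : 2 * (2 * N + 1 - (N + 1 - q)) ≤ 3 * N := by omega
          have h2 : (2:ℝ) * ((2 * N + 1 - (N + 1 - q) : ℕ) : ℝ) ≤ 3 * N := by exact_mod_cast h1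
          linarith
      _ = 3 * B ^ 2 := by field_simp
  have hmid : ∑ n ∈ Ico (n₁ + q) (N + 1 - q), r n ^ 2 / n
      ≤ ∑ d ∈ D, (1 / (q:ℝ)) * ∑ i ∈ range q, r (d + i) ^ 2 / ((d + i : ℕ) : ℝ) := by
    rw [← mul_sum, sum_comm]
    have h1 : ∀ i ∈ range q, ∑ n ∈ Ico (n₁ + q) (N + 1 - q), r n ^ 2 / n
        ≤ ∑ d ∈ D, r (d + i) ^ 2 / ((d + i : ℕ) : ℝ) := by
      intro i hi
      rw [mem_range] at hi
      rw [hD, Finset.sum_Ico_add' (fun n : ℕ => r n ^ 2 / (n:ℝ)) n₁ (N + 1 - q) i]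
      apply sum_le_sum_of_subset_of_nonneg
      · apply Finset.Ico_subset_Ico <;> omega
      · intro n _ _
        positivity
    have h2 := sum_le_sum h1
    rw [sum_const, card_range, nsmul_eq_mul] at h2
    calc ∑ n ∈ Ico (n₁ + q) (N + 1 - q), r n ^ 2 / n
        = (1 / (q:ℝ)) * (q * ∑ n ∈ Ico (n₁ + q) (N + 1 - q), r n ^ 2 / n) := by field_simp
      _ ≤ _ := by gcongr
  -- second sum
  have hsecond : ∑ d ∈ D, (1 / (q:ℝ) ^ 2) * ∑ i ∈ range q, ∑ j ∈ range q,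
        r (d + i) * r (d + j) * (2 / (((d + i : ℕ) : ℝ) + ((d + j : ℕ) : ℝ)))
      ≤ (1 / (q:ℝ) ^ 2) * ∑ i ∈ range q, ∑ j ∈ range q,
          ∑ n ∈ Ico 1 (2 * N + 1), ∑ n' ∈ Ico 1 (2 * N + 1),
            (if n + j = n' + i then r n * r n' * (2 / ((n:ℝ) + n')) else 0) := by
    rw [← mul_sum]
    apply mul_le_mul_of_nonneg_left _ (by positivity)
    rw [sum_comm]
    apply sum_le_sum
    intro i hi
    rw [sum_comm]
    apply sum_le_sum
    intro j hj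
    rw [mem_range] at hi hj
    rw [← sum_product']
    have hinj : Set.InjOn (fun d : ℕ => (d + i, d + j)) (D : Set ℕ) := by
      intro a _ b _ hab
      simp only [Prod.mk.injEq] at hab
      omega
    calc ∑ d ∈ D, r (d + i) * r (d + j) * (2 / (((d + i : ℕ) : ℝ) + ((d + j : ℕ) : ℝ)))
        = ∑ d ∈ D, (fun p : ℕ × ℕ => if p.1 + j = p.2 + i then
            r p.1 * r p.2 * (2 / ((p.1:ℝ) + p.2)) else 0) (d + i, d + j) := by
          apply sum_congr rfl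
          intro d _
          simp only
          rw [if_pos (by ring)]
      _ = ∑ p ∈ D.image (fun d : ℕ => (d + i, d + j)), (if p.1 + j = p.2 + i then
            r p.1 * r p.2 * (2 / ((p.1:ℝ) + p.2)) else 0) := by
          rw [sum_image hinj]
      _ ≤ _ := by
          apply sum_le_sum_of_subset_of_nonneg
          · intro p hp
            rw [mem_image] at hp
            obtain ⟨d, hd, rfl⟩ := hp
            rw [hD, Finset.mem_Ico] at hd
            rw [Finset.mem_product, Finset.mem_Ico, Finset.mem_Ico]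
            simp only
            omega
          · intro p _ _
            split_ifs
            · have := hr0 p.1
              have := hr0 p.2
              positivity
            · exact le_rfl
  -- bracket
  have hbr : ∀ d ∈ D, (1 / (q:ℝ)) * ∑ i ∈ range q, r (d + i) ^ 2 / ((d + i : ℕ) : ℝ)
      - (1 / (q:ℝ) ^ 2) * ∑ i ∈ range q, ∑ j ∈ range q,
        r (d + i) * r (d + j) * (2 / (((d + i : ℕ) : ℝ) + ((d + j : ℕ) : ℝ)))
      ≤ ((K - k) / 2) ^ 2 * (d:ℝ)⁻¹ + q * K ^ 2 * ((d:ℝ) ^ 2)⁻¹ := by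
    intro d hd
    rw [hD, Finset.mem_Ico] at hd
    have hd1 : 1 ≤ d := by omega
    have hd' : (1:ℝ) ≤ d := by exact_mod_cast hd1
    have hd0 : (0:ℝ) < d := by linarith
    have hrg : ∀ i < q, k ≤ r (d + i) ∧ r (d + i) ≤ K := by
      intro i hi
      exact hgood _ (by omega) (by omega)
    set M₂ := (1 / (q:ℝ)) * ∑ i ∈ range q, r (d + i) ^ 2 with hM₂
    set M₁ := (1 / (q:ℝ)) * ∑ i ∈ range q, r (d + i) with hM₁
    have h1 : (1 / (q:ℝ)) * ∑ i ∈ range q, r (d + i) ^ 2 / ((d + i : ℕ) : ℝ) ≤ M₂ * (d:ℝ)⁻¹ := by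
      rw [hM₂, mul_assoc, sum_mul]
      apply mul_le_mul_of_nonneg_left _ (by positivity)
      apply sum_le_sum
      intro i _
      rw [div_eq_mul_inv]
      apply mul_le_mul_of_nonneg_left _ (by positivity)
      apply inv_anti₀ hd0
      push_cast
      linarith [show (0:ℝ) ≤ i from Nat.cast_nonneg i]
    have h2 : M₁ ^ 2 * ((d:ℝ) + q)⁻¹ ≤ (1 / (q:ℝ) ^ 2) * ∑ i ∈ range q, ∑ j ∈ range q,
        r (d + i) * r (d + j) * (2 / (((d + i : ℕ) : ℝ) + ((d + j : ℕ) : ℝ))) := by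
      have e : M₁ ^ 2 * ((d:ℝ) + q)⁻¹ = (1 / (q:ℝ) ^ 2) * ∑ i ∈ range q, ∑ j ∈ range q,
          r (d + i) * r (d + j) * ((d:ℝ) + q)⁻¹ := by
        simp_rw [← sum_mul]
        rw [hM₁, mul_pow, pow_two (∑ i ∈ range q, _), sum_mul_sum]
        ring
      rw [e]
      apply mul_le_mul_of_nonneg_left _ (by positivity)
      apply sum_le_sum
      intro i hi
      apply sum_le_sum
      intro j hj
      rw [mem_range] at hi hj
      have hi' : (i:ℝ) ≤ q := by exact_mod_cast hi.le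
      have hj' : (j:ℝ) ≤ q := by exact_mod_cast hj.le
      apply mul_le_mul_of_nonneg_left _ (mul_nonneg (hr0 _) (hr0 _))
      rw [inv_eq_one_div, div_le_div_iff₀ (by positivity) (by positivity)]
      push_cast
      linarith
    have h3 := variance_le q hq (fun i => r (d + i)) k K hrg
    have h4 : M₁ ≤ K := by
      rw [hM₁]
      calc (1 / (q:ℝ)) * ∑ i ∈ range q, r (d + i) ≤ (1 / (q:ℝ)) * ∑ i ∈ range q, K := by
            apply mul_le_mul_of_nonneg_left _ (by positivity)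
            apply sum_le_sum
            intro i hi
            exact (hrg i (mem_range.mp hi)).2
        _ = K := by simp; field_simp
    have h5 : 0 ≤ M₁ := by
      rw [hM₁]
      apply mul_nonneg (by positivity)
      apply sum_nonneg
      intro i _
      exact hr0 _
    have h6 : M₁ ^ 2 ≤ K ^ 2 := pow_le_pow_left₀ h5 h4 2
    have h7 : (d:ℝ)⁻¹ - ((d:ℝ) + q)⁻¹ ≤ q * ((d:ℝ) ^ 2)⁻¹ := by
      have e : (d:ℝ)⁻¹ - ((d:ℝ) + q)⁻¹ = q * ((d:ℝ) * (d + q))⁻¹ := by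
        field_simp
        ring
      rw [e]
      apply mul_le_mul_of_nonneg_left _ (by positivity)
      apply inv_anti₀ (by positivity)
      rw [pow_two]
      gcongr
      linarith
    have h8 : 0 ≤ (d:ℝ)⁻¹ - ((d:ℝ) + q)⁻¹ := by
      rw [sub_nonneg]
      apply inv_anti₀ hd0
      linarith
    calc _ ≤ M₂ * (d:ℝ)⁻¹ - M₁ ^ 2 * ((d:ℝ) + q)⁻¹ := by linarith
      _ = (M₂ - M₁ ^ 2) * (d:ℝ)⁻¹ + M₁ ^ 2 * ((d:ℝ)⁻¹ - ((d:ℝ) + q)⁻¹) := by ring
      _ ≤ ((K - k) / 2) ^ 2 * (d:ℝ)⁻¹ + K ^ 2 * (q * ((d:ℝ) ^ 2)⁻¹) := by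
          gcongr
      _ = _ := by ring
  have hsumbr : ∑ d ∈ D, (1 / (q:ℝ)) * ∑ i ∈ range q, r (d + i) ^ 2 / ((d + i : ℕ) : ℝ)
      - ∑ d ∈ D, (1 / (q:ℝ) ^ 2) * ∑ i ∈ range q, ∑ j ∈ range q,
        r (d + i) * r (d + j) * (2 / (((d + i : ℕ) : ℝ) + ((d + j : ℕ) : ℝ)))
      ≤ ((K - k) / 2) ^ 2 * ∑ d ∈ D, (d:ℝ)⁻¹ + q * K ^ 2 * ∑ d ∈ D, ((d:ℝ) ^ 2)⁻¹ := by
    rw [← sum_sub_distrib, mul_sum, mul_sum, ← sum_add_distrib]
    exact sum_le_sum hbr
  have hΔ : 0 ≤ ((K - k) / 2) ^ 2 := sq_nonneg _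
  have hf1 : ((K - k) / 2) ^ 2 * ∑ i ∈ D, ((i:ℝ))⁻¹ ≤ ((K - k) / 2) ^ 2 * (1 + Real.log N) := by
    apply mul_le_mul_of_nonneg_left _ hΔ
    exact sum_Ico_inv_le _ _ _ hn₁ (by omega)
  have hf2 : (q:ℝ) * K ^ 2 * ∑ i ∈ D, ((i:ℝ) ^ 2)⁻¹ ≤ q * K ^ 2 * 2 := by
    apply mul_le_mul_of_nonneg_left _ (by positivity)
    exact sum_Ico_inv_sq_le _ _ hn₁
  rw [hsplit]
  linarith

end Pool.Agent.MP_eaae5b_nt
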