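import Pool.Agent.MP_eaae5b_nt.Integrals

open Finset MeasureTheory Set intervalIntegral

namespace Pool.Agent.MP_eaae5b_nt

noncomputable def G0 (S : Finset ℕ) (τ : ℝ) : ℝ := ∑ a ∈ S, uu τ a a

noncomputable def phi (S : Finset ℕ) (τ : ℝ) : ℝ := ∑ a ∈ S, Real.exp (-(τ * a))

noncomputable def Psi (S : Finset ℕ) (τ : ℝ) : ℝ :=
  ∑ a ∈ S, Real.sqrt τ * (-(16 + 6 * (τ * a) + 4 * (τ * a) ^ 2)) * Real.exp (-(τ * a))

lemma hasDerivAt_Psi (S : Finset ℕ) {τ : ℝ} (hτ : 0 < τ) :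
    HasDerivAt (Psi S) ((G0 S τ - 29 * phi S τ) / Real.sqrt τ) τ := by
  have h : (G0 S τ - 29 * phi S τ) / Real.sqrt τ
      = ∑ a ∈ S, (uu τ a a - 29 * Real.exp (-(τ * a))) / Real.sqrt τ := by
    unfold G0 phi
    rw [mul_sum, ← sum_sub_distrib, sum_div]
  rw [h]
  unfold Psi
  apply HasDerivAt.fun_sum
  intro a _
  have h1 : HasDerivAt (fun τ : ℝ => Real.sqrt τ) (1 / (2 * Real.sqrt τ)) τ :=
    Real.hasDerivAt_sqrt hτ.ne'
  have h2 : HasDerivAt (fun τ : ℝ => -(16 + 6 * (τ * a) + 4 * (τ * a) ^ 2))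
      (-(6 * (a:ℝ) + 4 * (2 * (τ * a) * a))) τ := by
    have e1 : HasDerivAt (fun τ : ℝ => τ * (a:ℝ)) (a:ℝ) τ := by
      simpa using (hasDerivAt_id τ).mul_const (a:ℝ)
    have e2 := e1.fun_pow 2
    have e3 := ((e1.const_mul 6).const_add 16).fun_add (e2.const_mul 4)
    have e4 := e3.fun_neg
    refine e4.congr_deriv ?_
    push_cast
    ring
  have h3 : HasDerivAt (fun τ : ℝ => Real.exp (-(τ * a))) (Real.exp (-(τ * a)) * (-(a:ℝ))) τ := by
    have e0 : HasDerivAt (fun τ : ℝ => τ * (a:ℝ)) (a:ℝ) τ := by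
      simpa using (hasDerivAt_id τ).mul_const (a:ℝ)
    have e1 : HasDerivAt (fun τ : ℝ => -(τ * (a:ℝ))) (-(a:ℝ)) τ := e0.fun_neg
    exact e1.exp
  have h4 := (h1.fun_mul h2).fun_mul h3
  refine h4.congr_deriv ?_
  unfold uu pol
  have hs : Real.sqrt τ ≠ 0 := (Real.sqrt_pos.mpr hτ).ne'
  have hs2 : Real.sqrt τ ^ 2 = τ := Real.sq_sqrt hτ.le
  have he : Real.exp (-(τ * ((a:ℝ) + a) / 2)) = Real.exp (-(τ * a)) := by
    congr 1
    ring
  rw [he]
  set s := Real.sqrt τ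
  rw [← hs2]
  field_simp
  ring

lemma sum_inv_sq_le (S : Finset ℕ) (hS : ∀ a ∈ S, 1 ≤ a) :
    ∑ a ∈ S, ((a:ℝ) ^ 2)⁻¹ ≤ 2 := by
  have h := sum_Ioo_inv_sq_le (α := ℝ) 0 (S.sup id + 1)
  refine le_trans ?_ (le_trans h (by norm_num))
  apply sum_le_sum_of_subset_of_nonneg
  · intro a ha
    rw [Finset.mem_Ioo]
    have h1 := hS a ha
    have h2 : a ≤ S.sup id := Finset.le_sup (f := id) ha
    omega
  · intro i _ _
    positivity

lemma tail_sum_le (S : Finset ℕ) (hS : ∀ a ∈ S, 1 ≤ a) :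
    ∑ a ∈ S, (16 + 6 * (a:ℝ) + 4 * (a:ℝ) ^ 2) * Real.exp (-(a:ℝ)) ≤ 1248 := by
  calc ∑ a ∈ S, (16 + 6 * (a:ℝ) + 4 * (a:ℝ) ^ 2) * Real.exp (-(a:ℝ))
      ≤ ∑ a ∈ S, 624 * ((a:ℝ) ^ 2)⁻¹ := by
        apply sum_le_sum
        intro a ha
        have ha1 : (1:ℝ) ≤ a := by exact_mod_cast hS a ha
        have h1 : (a:ℝ) ^ 4 / 24 ≤ Real.exp a := by
          have := Real.pow_div_factorial_le_exp (a:ℝ) (by positivity) 4
          have e : ((Nat.factorial 4 : ℕ) : ℝ) = 24 := by norm_num [Nat.factorial]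
          rw [e] at this
          exact this
        have h2 : Real.exp (-(a:ℝ)) ≤ 24 / (a:ℝ) ^ 4 := by
          rw [Real.exp_neg, inv_le_comm₀ (Real.exp_pos _) (by positivity)]
          rw [inv_div]
          exact h1
        calc (16 + 6 * (a:ℝ) + 4 * (a:ℝ) ^ 2) * Real.exp (-(a:ℝ))
            ≤ (26 * (a:ℝ) ^ 2) * (24 / (a:ℝ) ^ 4) := by
              gcongr
              nlinarith
          _ = 624 * ((a:ℝ) ^ 2)⁻¹ := by
              field_simp
              norm_num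
    _ = 624 * ∑ a ∈ S, ((a:ℝ) ^ 2)⁻¹ := by rw [mul_sum]
    _ ≤ 624 * 2 := by
        gcongr
        exact sum_inv_sq_le S hS
    _ = 1248 := by norm_num

lemma continuousOn_G0 (S : Finset ℕ) : Continuous (G0 S) := by
  unfold G0 uu pol
  fun_prop

lemma continuousOn_phi (S : Finset ℕ) : Continuous (phi S) := by
  unfold phi
  fun_prop

lemma vac2 (S : Finset ℕ) (hS : ∀ a ∈ S, 1 ≤ a) {ε : ℝ} (hε : 0 < ε) (hε1 : ε ≤ 1) :
    -1248 ≤ ∫ τ in ε..1, (G0 S τ - 29 * phi S τ) / Real.sqrt τ := by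
  have hint : ∫ τ in ε..1, (G0 S τ - 29 * phi S τ) / Real.sqrt τ = Psi S 1 - Psi S ε := by
    apply intervalIntegral.integral_eq_sub_of_hasDerivAt
    · intro τ hτ
      rw [Set.uIcc_of_le hε1] at hτ
      exact hasDerivAt_Psi S (lt_of_lt_of_le hε hτ.1)
    · apply ContinuousOn.intervalIntegrable
      rw [Set.uIcc_of_le hε1]
      apply ContinuousOn.div
      · exact ((continuousOn_G0 S).sub ((continuousOn_phi S).const_mul 29)).continuousOn
      · exact Real.continuous_sqrt.continuousOn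
      · intro τ hτ
        exact (Real.sqrt_pos.mpr (lt_of_lt_of_le hε hτ.1)).ne'
  rw [hint]
  have h1 : Psi S ε ≤ 0 := by
    unfold Psi
    apply sum_nonpos
    intro a _
    have : 0 ≤ Real.sqrt ε * (16 + 6 * (ε * a) + 4 * (ε * a) ^ 2) * Real.exp (-(ε * a)) := by
      positivity
    linarith
  have h2 : -1248 ≤ Psi S 1 := by
    have := tail_sum_le S hS
    have e : Psi S 1 = -∑ a ∈ S, (16 + 6 * (a:ℝ) + 4 * (a:ℝ) ^ 2) * Real.exp (-(a:ℝ)) := by
      unfold Psi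
      rw [← sum_neg_distrib]
      apply sum_congr rfl
      intro a _
      simp only [Real.sqrt_one, one_mul]
      ring
    rw [e]
    linarith
  linarith

lemma phi_sq (S : Finset ℕ) (τ : ℝ) :
    phi S τ ^ 2 = ∑ p ∈ S ×ˢ S, Real.exp (-(τ * ((p.1 + p.2 : ℕ):ℝ))) := by
  unfold phi
  rw [pow_two, sum_mul_sum, sum_product]
  apply sum_congr rfl
  intro a _
  apply sum_congr rfl
  intro b _
  rw [← Real.exp_add]
  congr 1
  push_cast
  ring

lemma vac4 (S : Finset ℕ) (N k n₀ : ℕ) (hN : 0 < N)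
    (hrep : ∀ n ∈ Finset.Ico n₀ N, k ≤ (#{p ∈ S ×ˢ S | p.1 + p.2 = n}))
    {τ : ℝ} (hτ : 0 < τ) :
    Real.sqrt k * (1 / τ - n₀ - 1 / (τ ^ 2 * N)) ≤ phi S τ / Real.sqrt τ := by
  have hφ0 : 0 ≤ phi S τ := by unfold phi; positivity
  have hs : 0 < Real.sqrt τ := Real.sqrt_pos.mpr hτ
  have hs2 : Real.sqrt τ ^ 2 = τ := Real.sq_sqrt hτ.le
  have hN' : (0:ℝ) < N := by exact_mod_cast hN
  set y : ℝ := 1 - τ * n₀ - 1 / (τ * N) with hy
  have hyeq : 1 / τ - n₀ - 1 / (τ ^ 2 * N) = y / τ := by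
    rw [hy]; field_simp
  rw [hyeq]
  by_cases hy0 : y ≤ 0
  · have h1 : Real.sqrt k * (y / τ) ≤ 0 := by
      apply mul_nonpos_of_nonneg_of_nonpos (Real.sqrt_nonneg _)
      exact div_nonpos_of_nonpos_of_nonneg hy0 hτ.le
    have h2 : 0 ≤ phi S τ / Real.sqrt τ := by positivity
    linarith
  push Not at hy0
  have hy1 : y ≤ 1 := by
    have h1 : 0 ≤ τ * n₀ := by positivity
    have h2 : 0 ≤ 1 / (τ * N) := by positivity
    linarith
  -- phi^2 lower bound
  have hle : (n₀:ℝ) ≤ N := by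
    by_contra hcon
    push Not at hcon
    have h1 : τ * N < τ * n₀ := by gcongr
    have h2 : 1 - τ * N - 1 / (τ * N) < 0 ∨ 1 - τ * N - 1 / (τ * N) = 0 ∨ 0 < 1 - τ * N - 1 / (τ * N) := by
      exact lt_trichotomy _ _
    have h3 : 0 < τ * N := by positivity
    have h4 : 1 - τ * N - 1 / (τ * N) ≤ -1 := by
      have h5 : 2 ≤ τ * N + 1 / (τ * N) := by
        have : τ * N + 1 / (τ * N) - 2 = (τ * N - 1) ^ 2 / (τ * N) := by field_simp; ring
        have h6 : 0 ≤ (τ * N - 1) ^ 2 / (τ * N) := by positivity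
        linarith
      linarith
    linarith
  have hleN : n₀ ≤ N := by exact_mod_cast hle
  have hsum : ∑ n ∈ Finset.Ico n₀ N, (k:ℝ) * Real.exp (-(τ * n)) ≤ phi S τ ^ 2 := by
    rw [phi_sq]
    have h1 : ∑ p ∈ S ×ˢ S, Real.exp (-(τ * ((p.1 + p.2 : ℕ):ℝ)))
        ≥ ∑ p ∈ (S ×ˢ S).filter (fun p => p.1 + p.2 ∈ Finset.Ico n₀ N),
            Real.exp (-(τ * ((p.1 + p.2 : ℕ):ℝ))) := by
      apply sum_le_sum_of_subset_of_nonneg (filter_subset _ _)
      intro i _ _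
      positivity
    refine le_trans ?_ h1
    rw [← sum_fiberwise_of_maps_to (t := Finset.Ico n₀ N) (g := fun p : ℕ × ℕ => p.1 + p.2)
      (fun p hp => (Finset.mem_filter.mp hp).2)]
    apply sum_le_sum
    intro n hn
    have h2 : ∑ p ∈ ((S ×ˢ S).filter (fun p => p.1 + p.2 ∈ Finset.Ico n₀ N)).filter
          (fun p => p.1 + p.2 = n), Real.exp (-(τ * ((p.1 + p.2 : ℕ):ℝ)))
        = ∑ p ∈ (S ×ˢ S).filter (fun p => p.1 + p.2 = n), Real.exp (-(τ * n)) := by
      rw [filter_filter]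
      have h3 : (S ×ˢ S).filter (fun p => p.1 + p.2 ∈ Finset.Ico n₀ N ∧ p.1 + p.2 = n)
          = (S ×ˢ S).filter (fun p => p.1 + p.2 = n) := by
        apply filter_congr
        intro p _
        constructor
        · exact fun h => h.2
        · intro h
          exact ⟨h ▸ hn, h⟩
      rw [h3]
      apply sum_congr rfl
      intro p hp
      rw [(Finset.mem_filter.mp hp).2]
    rw [h2, sum_const, nsmul_eq_mul]
    gcongr
    exact_mod_cast hrep n hn
  have htel : Real.exp (-(τ * n₀)) - Real.exp (-(τ * N))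
      ≤ τ * ∑ n ∈ Finset.Ico n₀ N, Real.exp (-(τ * n)) := by
    have h1 : ∑ n ∈ Finset.Ico n₀ N, (Real.exp (-(τ * n)) - Real.exp (-(τ * (n + 1 : ℕ))))
        = Real.exp (-(τ * n₀)) - Real.exp (-(τ * N)) := by
      have := Finset.sum_Ico_sub (fun n : ℕ => -Real.exp (-(τ * n))) hleN
      rw [← neg_sub_neg]
      rw [← this]
      apply sum_congr rfl
      intro n _
      ring
    rw [← h1, mul_sum]
    apply sum_le_sum
    intro n _
    have h2 : Real.exp (-(τ * (n + 1 : ℕ))) = Real.exp (-(τ * n)) * Real.exp (-τ) := by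
      rw [← Real.exp_add]
      congr 1
      push_cast
      ring
    rw [h2]
    have h3 : 1 - τ ≤ Real.exp (-τ) := by
      have := Real.add_one_le_exp (-τ)
      linarith
    have h4 : 0 < Real.exp (-(τ * n)) := Real.exp_pos _
    nlinarith
  have hyx : y ≤ Real.exp (-(τ * n₀)) - Real.exp (-(τ * N)) := by
    have h1 : 1 - τ * n₀ ≤ Real.exp (-(τ * n₀)) := by
      have := Real.add_one_le_exp (-(τ * n₀))
      linarith
    have h2 : Real.exp (-(τ * N)) ≤ 1 / (τ * N) := by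
      rw [Real.exp_neg, inv_le_comm₀ (Real.exp_pos _) (by positivity), one_div, inv_inv]
      have := Real.add_one_le_exp (τ * N)
      linarith
    linarith
  have hfin : (k:ℝ) * y ^ 2 ≤ τ * phi S τ ^ 2 := by
    have h1 : y ^ 2 ≤ y := by nlinarith
    calc (k:ℝ) * y ^ 2 ≤ k * (Real.exp (-(τ * n₀)) - Real.exp (-(τ * N))) := by
          gcongr
          linarith
      _ ≤ k * (τ * ∑ n ∈ Finset.Ico n₀ N, Real.exp (-(τ * n))) := by gcongr
      _ = τ * ∑ n ∈ Finset.Ico n₀ N, (k:ℝ) * Real.exp (-(τ * n)) := by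
          rw [← mul_sum]
          ring
      _ ≤ _ := by gcongr
  -- take square roots
  have hroot : Real.sqrt k * y ≤ Real.sqrt τ * phi S τ := by
    apply le_of_sq_le_sq ?_ (by positivity)
    rw [mul_pow, mul_pow, Real.sq_sqrt (by positivity), hs2]
    exact hfin
  rw [le_div_iff₀ hs]
  calc Real.sqrt k * (y / τ) * Real.sqrt τ = (Real.sqrt k * y) * Real.sqrt τ / τ := by ring
    _ ≤ (Real.sqrt τ * phi S τ) * Real.sqrt τ / τ := by gcongr
    _ = phi S τ * (Real.sqrt τ ^ 2) / τ := by ring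
    _ = phi S τ := by rw [hs2]; field_simp

lemma vac5 (N n₀ : ℕ) (hN : 0 < N) :
    ∫ τ in (1 / (N:ℝ))..1, (1 / τ - n₀ - 1 / (τ ^ 2 * N))
      = Real.log N - n₀ * (1 - 1 / N) - (1 - 1 / N) := by
  have hN' : (0:ℝ) < N := by exact_mod_cast hN
  have hε : (0:ℝ) < 1 / N := by positivity
  have hε1 : 1 / (N:ℝ) ≤ 1 := by
    rw [div_le_one hN']
    exact_mod_cast hN
  have hd : ∀ τ ∈ Set.uIcc (1 / (N:ℝ)) 1,
      HasDerivAt (fun τ : ℝ => Real.log τ - n₀ * τ + 1 / (N:ℝ) * τ⁻¹)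
        (1 / τ - n₀ - 1 / (τ ^ 2 * N)) τ := by
    intro τ hτ
    rw [Set.uIcc_of_le hε1] at hτ
    have hτ0 : 0 < τ := lt_of_lt_of_le hε hτ.1
    have h1 := Real.hasDerivAt_log hτ0.ne'
    have h2 : HasDerivAt (fun τ : ℝ => (n₀:ℝ) * τ) (n₀:ℝ) τ := by
      simpa using (hasDerivAt_id τ).const_mul (n₀:ℝ)
    have h3 := (hasDerivAt_inv hτ0.ne').const_mul (1 / (N:ℝ))
    refine ((h1.fun_sub h2).fun_add h3).congr_deriv ?_
    field_simp
    ring
  rw [intervalIntegral.integral_eq_sub_of_hasDerivAt hd]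
  · simp only [Real.log_one, one_div, Real.log_inv, inv_inv]
    field_simp
    ring
  · apply ContinuousOn.intervalIntegrable
    rw [Set.uIcc_of_le hε1]
    intro τ hτ
    have hτ0 : 0 < τ := lt_of_lt_of_le hε hτ.1
    apply ContinuousAt.continuousWithinAt
    have : τ ^ 2 * (N:ℝ) ≠ 0 := by positivity
    fun_prop (disch := first | exact hτ0.ne' | assumption)

lemma integrableOn_G0_sq (S : Finset ℕ) (hS : ∀ a ∈ S, 1 ≤ a) :
    IntegrableOn (fun τ => G0 S τ ^ 2) (Ioi 0) := by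
  have : (fun τ => G0 S τ ^ 2) = fun τ => ∑ a ∈ S, ∑ b ∈ S, uu τ a a * uu τ b b := by
    funext τ
    unfold G0
    rw [pow_two, sum_mul_sum]
  rw [this]
  apply integrable_finsetSum
  intro a ha
  apply integrable_finsetSum
  intro b _
  apply integrable_uu_mul
  have : (1:ℝ) ≤ a := by exact_mod_cast hS a ha
  positivity

theorem vacuum (S : Finset ℕ) (hS : ∀ a ∈ S, 1 ≤ a) (N k n₀ : ℕ) (hN : 0 < N)
    (hrep : ∀ n ∈ Finset.Ico n₀ N, k ≤ (#{p ∈ S ×ˢ S | p.1 + p.2 = n})) :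
    841 * k * Real.log N - 1682 * k * (n₀ + 1) - 72384 * Real.sqrt k
      ≤ ∫ τ in Ioi (0:ℝ), G0 S τ ^ 2 := by
  have hN' : (0:ℝ) < N := by exact_mod_cast hN
  have hε : (0:ℝ) < 1 / N := by positivity
  have hε1 : 1 / (N:ℝ) ≤ 1 := by
    rw [div_le_one hN']
    exact_mod_cast hN
  have hk0 : 0 ≤ Real.sqrt k := Real.sqrt_nonneg _
  have hk2 : Real.sqrt k ^ 2 = k := Real.sq_sqrt (by positivity)
  -- step 1: restrict
  have h1 : ∫ τ in (1 / (N:ℝ))..1, G0 S τ ^ 2 ≤ ∫ τ in Ioi (0:ℝ), G0 S τ ^ 2 := by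
    rw [intervalIntegral.integral_of_le hε1]
    apply setIntegral_mono_set (integrableOn_G0_sq S hS)
    · filter_upwards with τ
      positivity
    · apply LE.le.eventuallyLE
      intro τ hτ
      exact lt_trans hε hτ.1
  -- integrability on the interval
  have hcont_inv : ContinuousOn (fun τ : ℝ => Real.sqrt τ) (Set.Icc (1 / (N:ℝ)) 1) :=
    Real.continuous_sqrt.continuousOn
  have hsne : ∀ τ ∈ Set.Icc (1 / (N:ℝ)) 1, Real.sqrt τ ≠ 0 := by
    intro τ hτ
    exact (Real.sqrt_pos.mpr (lt_of_lt_of_le hε hτ.1)).ne'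
  have hτne : ∀ τ ∈ Set.Icc (1 / (N:ℝ)) 1, τ ≠ 0 := by
    intro τ hτ
    exact (lt_of_lt_of_le hε hτ.1).ne'
  have hi1 : IntervalIntegrable (fun τ => (G0 S τ - 29 * phi S τ) / Real.sqrt τ) volume
      (1 / (N:ℝ)) 1 := by
    apply ContinuousOn.intervalIntegrable
    rw [Set.uIcc_of_le hε1]
    exact ContinuousOn.div
      ((continuousOn_G0 S).sub ((continuousOn_phi S).const_mul 29)).continuousOn hcont_inv hsne
  have hi2 : IntervalIntegrable (fun τ => phi S τ / Real.sqrt τ) volume (1 / (N:ℝ)) 1 := by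
    apply ContinuousOn.intervalIntegrable
    rw [Set.uIcc_of_le hε1]
    exact ContinuousOn.div (continuousOn_phi S).continuousOn hcont_inv hsne
  have hi3 : IntervalIntegrable (fun τ => (1 / τ - n₀ - 1 / (τ ^ 2 * N))) volume
      (1 / (N:ℝ)) 1 := by
    apply ContinuousOn.intervalIntegrable
    rw [Set.uIcc_of_le hε1]
    intro τ hτ
    have hτ0 : 0 < τ := lt_of_lt_of_le hε hτ.1
    apply ContinuousAt.continuousWithinAt
    have h0 := hτ0.ne'
    have : τ ^ 2 * (N:ℝ) ≠ 0 := by positivity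
    fun_prop (disch := first | exact hτ0.ne' | assumption)
  have hi4 : IntervalIntegrable (fun τ : ℝ => 1 / τ) volume (1 / (N:ℝ)) 1 := by
    apply ContinuousOn.intervalIntegrable
    rw [Set.uIcc_of_le hε1]
    exact ContinuousOn.div continuousOn_const continuousOn_id hτne
  have hi5 : IntervalIntegrable (fun τ => G0 S τ ^ 2) volume (1 / (N:ℝ)) 1 :=
    ((continuousOn_G0 S).pow 2).intervalIntegrable _ _
  have hlog : ∫ τ in (1 / (N:ℝ))..1, 1 / τ = Real.log N := by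
    rw [integral_one_div_of_pos hε one_pos]
    simp
  -- step 2: pointwise AM-GM
  set lam := 29 * Real.sqrt k with hlam
  have h2 : ∫ τ in (1 / (N:ℝ))..1,
      (2 * lam * ((G0 S τ - 29 * phi S τ) / Real.sqrt τ) + 58 * lam * (phi S τ / Real.sqrt τ)
        - lam ^ 2 * (1 / τ)) ≤ ∫ τ in (1 / (N:ℝ))..1, G0 S τ ^ 2 := by
    apply intervalIntegral.integral_mono_on hε1
    · exact ((hi1.const_mul _).add (hi2.const_mul _)).sub (hi4.const_mul _)
    · exact hi5
    · intro τ hτ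
      have hτ0 : 0 < τ := lt_of_lt_of_le hε hτ.1
      have hs : 0 < Real.sqrt τ := Real.sqrt_pos.mpr hτ0
      have hs2 : Real.sqrt τ ^ 2 = τ := Real.sq_sqrt hτ0.le
      have e : G0 S τ ^ 2 - (2 * lam * ((G0 S τ - 29 * phi S τ) / Real.sqrt τ)
          + 58 * lam * (phi S τ / Real.sqrt τ) - lam ^ 2 * (1 / τ))
          = (G0 S τ - lam / Real.sqrt τ) ^ 2 := by
        have e1 : 1 / τ = (Real.sqrt τ)⁻¹ ^ 2 := by
          rw [inv_pow, hs2, one_div]
        rw [e1]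
        ring
      have h0 := sq_nonneg (G0 S τ - lam / Real.sqrt τ)
      linarith
  have h3 : ∫ τ in (1 / (N:ℝ))..1,
      (2 * lam * ((G0 S τ - 29 * phi S τ) / Real.sqrt τ) + 58 * lam * (phi S τ / Real.sqrt τ)
        - lam ^ 2 * (1 / τ))
      = 2 * lam * (∫ τ in (1 / (N:ℝ))..1, ((G0 S τ - 29 * phi S τ) / Real.sqrt τ))
        + 58 * lam * (∫ τ in (1 / (N:ℝ))..1, phi S τ / Real.sqrt τ) - lam ^ 2 * Real.log N := by
    rw [intervalIntegral.integral_sub ((hi1.const_mul _).add (hi2.const_mul _)) (hi4.const_mul _),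
      intervalIntegral.integral_add (hi1.const_mul _) (hi2.const_mul _),
      intervalIntegral.integral_const_mul, intervalIntegral.integral_const_mul,
      intervalIntegral.integral_const_mul, hlog]
  have h4 := vac2 S hS hε hε1
  have h5 : Real.sqrt k * (Real.log N - n₀ * (1 - 1 / N) - (1 - 1 / N))
      ≤ ∫ τ in (1 / (N:ℝ))..1, phi S τ / Real.sqrt τ := by
    rw [← vac5 N n₀ hN, ← intervalIntegral.integral_const_mul]
    apply intervalIntegral.integral_mono_on hε1 (hi3.const_mul _) hi2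
    intro τ hτ
    exact vac4 S N k n₀ hN hrep (lt_of_lt_of_le hε hτ.1)
  have h6 : Real.sqrt k * (Real.log N - n₀ - 1)
      ≤ ∫ τ in (1 / (N:ℝ))..1, phi S τ / Real.sqrt τ := by
    refine le_trans ?_ h5
    apply mul_le_mul_of_nonneg_left _ hk0
    have : (0:ℝ) ≤ n₀ * (1 / N) := by positivity
    nlinarith
  have hlam0 : 0 ≤ lam := by positivity
  have h7 : 2 * lam * (-1248) + 58 * lam * (Real.sqrt k * (Real.log N - n₀ - 1))
      - lam ^ 2 * Real.log N ≤ ∫ τ in Ioi (0:ℝ), G0 S τ ^ 2 := by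
    refine le_trans ?_ h1
    refine le_trans ?_ h2
    rw [h3]
    have e1 := mul_le_mul_of_nonneg_left h4 (show 0 ≤ 2 * lam by positivity)
    have e2 := mul_le_mul_of_nonneg_left h6 (show 0 ≤ 58 * lam by positivity)
    linarith
  refine le_trans (le_of_eq ?_) h7
  rw [hlam]
  linear_combination (-(58 * 29 * (Real.log N - n₀ - 1)) + 841 * Real.log N) * hk2

end Pool.Agent.MP_eaae5b_nt
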