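import Pool.Agent.MP_eaae5b_nt.TChannel
import Pool.Agent.MP_eaae5b_nt.ErrBound
import Pool.Agent.MP_eaae5b_nt.Vacuum
import Pool.Agent.MP_eaae5b_nt.SChannel

open Finset MeasureTheory

namespace Pool.Agent.MP_eaae5b_nt

lemma integrable_form (S : Finset ℕ) (hS : ∀ a ∈ S, 1 ≤ a)
    (c : ℕ × ℕ → ℕ × ℕ → Prop) [∀ x y, Decidable (c x y)] :
    IntegrableOn (fun τ : ℝ => ∑ x ∈ S ×ˢ S, ∑ y ∈ S ×ˢ S,
      if c x y then uu τ x.1 x.2 * uu τ y.1 y.2 else 0) (Set.Ioi 0) := by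
  apply integrable_finsetSum
  intro x hx
  apply integrable_finsetSum
  intro y _
  split_ifs
  · apply integrable_uu_mul
    have : (1:ℝ) ≤ x.1 := by exact_mod_cast hS _ (Finset.mem_product.mp hx).1
    positivity
  · exact integrable_zero _ _ _

lemma integral_form (S : Finset ℕ) (hS : ∀ a ∈ S, 1 ≤ a)
    (c : ℕ × ℕ → ℕ × ℕ → Prop) [∀ x y, Decidable (c x y)] :
    ∫ τ in Set.Ioi (0:ℝ), (∑ x ∈ S ×ˢ S, ∑ y ∈ S ×ˢ S,
      if c x y then uu τ x.1 x.2 * uu τ y.1 y.2 else 0)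
    = ∑ x ∈ S ×ˢ S, ∑ y ∈ S ×ˢ S, if c x y then FF x.1 x.2 y.1 y.2 else 0 := by
  have hpos : ∀ x ∈ S ×ˢ S, ∀ y ∈ S ×ˢ S, (0:ℝ) < x.1 + x.2 + y.2 + y.1 := by
    intro x hx y _
    have : (1:ℝ) ≤ x.1 := by exact_mod_cast hS _ (Finset.mem_product.mp hx).1
    positivity
  have hint : ∀ x ∈ S ×ˢ S, ∀ y ∈ S ×ˢ S, Integrable (fun τ : ℝ =>
      if c x y then uu τ x.1 x.2 * uu τ y.1 y.2 else 0) (volume.restrict (Set.Ioi 0)) := by
    intro x hx y hy
    split_ifs
    · exact integrable_uu_mul (hpos x hx y hy)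
    · exact integrable_zero _ _ _
  rw [integral_finsetSum]
  · apply sum_congr rfl
    intro x hx
    rw [integral_finsetSum]
    · apply sum_congr rfl
      intro y hy
      split_ifs
      · exact integral_uu_mul (hpos x hx y hy)
      · simp
    · intro y hy
      exact hint x hx y hy
  · intro x hx
    apply integrable_finsetSum
    intro y hy
    exact hint x hx y hy

/-- the quadruple sums -/
noncomputable def Zsum (S : Finset ℕ) (i j : ℕ) (F : ℝ → ℝ → ℝ → ℝ → ℝ) : ℝ :=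
  ∑ a ∈ S, ∑ b ∈ S, ∑ a' ∈ S, ∑ b' ∈ S, if a + b + j = a' + b' + i then F a a' b' b else 0

lemma form_eq_Zsum (S : Finset ℕ) (i j : ℕ) (F : ℝ → ℝ → ℝ → ℝ → ℝ) :
    (∑ x ∈ S ×ˢ S, ∑ y ∈ S ×ˢ S,
      if ((x.1:ℤ) - x.2) + j = ((y.1:ℤ) - y.2) + i then F x.1 x.2 y.1 y.2 else 0)
    = Zsum S i j F := by
  unfold Zsum
  simp_rw [sum_product]
  apply sum_congr rfl
  intro a _
  have : ∀ a' ∈ S, ∑ b' ∈ S, ∑ b ∈ S,
      (if ((a:ℤ) - a') + j = ((b':ℤ) - b) + i then F a a' b' b else 0)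
      = ∑ b ∈ S, ∑ b' ∈ S, if a + b + j = a' + b' + i then F a a' b' b else 0 := by
    intro a' _
    rw [sum_comm]
    apply sum_congr rfl
    intro b _
    apply sum_congr rfl
    intro b' _
    have h : ((a:ℤ) - a') + j = ((b':ℤ) - b) + i ↔ a + b + j = a' + b' + i := by
      constructor <;> intro h <;> omega
    simp only [h]
  rw [sum_congr rfl this, sum_comm]

lemma Zsum_swap1 (S : Finset ℕ) (i j : ℕ) (F : ℝ → ℝ → ℝ → ℝ → ℝ) :
    Zsum S i j (fun a a' b' b => F b a' b' a) = Zsum S i j F := by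
  unfold Zsum
  rw [sum_comm]
  apply sum_congr rfl
  intro a _
  apply sum_congr rfl
  intro b _
  apply sum_congr rfl
  intro a' _
  apply sum_congr rfl
  intro b' _
  rw [add_comm b a]

lemma Zsum_swap2 (S : Finset ℕ) (i j : ℕ) (F : ℝ → ℝ → ℝ → ℝ → ℝ) :
    Zsum S i j (fun a a' b' b => F a b' a' b) = Zsum S i j F := by
  unfold Zsum
  apply sum_congr rfl
  intro a _
  apply sum_congr rfl
  intro b _
  rw [sum_comm]
  apply sum_congr rfl
  intro a' _
  apply sum_congr rfl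
  intro b' _
  rw [add_comm b' a']

lemma Zsum_add (S : Finset ℕ) (i j : ℕ) (F G : ℝ → ℝ → ℝ → ℝ → ℝ) :
    Zsum S i j (fun a a' b' b => F a a' b' b + G a a' b' b) = Zsum S i j F + Zsum S i j G := by
  unfold Zsum
  simp_rw [← sum_add_distrib]
  apply sum_congr rfl
  intro a _
  apply sum_congr rfl
  intro b _
  apply sum_congr rfl
  intro a' _
  apply sum_congr rfl
  intro b' _
  split_ifs <;> simp

lemma Zsum_const_mul (S : Finset ℕ) (i j : ℕ) (c : ℝ) (F : ℝ → ℝ → ℝ → ℝ → ℝ) :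
    Zsum S i j (fun a a' b' b => c * F a a' b' b) = c * Zsum S i j F := by
  unfold Zsum
  simp_rw [mul_sum]
  apply sum_congr rfl
  intro a _
  apply sum_congr rfl
  intro b _
  apply sum_congr rfl
  intro a' _
  apply sum_congr rfl
  intro b' _
  split_ifs <;> simp

lemma Zsum_congr (S : Finset ℕ) (i j : ℕ) (F G : ℝ → ℝ → ℝ → ℝ → ℝ)
    (h : ∀ a ∈ S, ∀ b ∈ S, ∀ a' ∈ S, ∀ b' ∈ S, a + b + j = a' + b' + i →
      F a a' b' b = G a a' b' b) :
    Zsum S i j F = Zsum S i j G := by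
  unfold Zsum
  apply sum_congr rfl
  intro a ha
  apply sum_congr rfl
  intro b hb
  apply sum_congr rfl
  intro a' ha'
  apply sum_congr rfl
  intro b' hb'
  split_ifs with hc
  · exact h a ha b hb a' ha' b' hb' hc
  · rfl

lemma Zsum_le (S : Finset ℕ) (i j : ℕ) (F G : ℝ → ℝ → ℝ → ℝ → ℝ)
    (h : ∀ a ∈ S, ∀ b ∈ S, ∀ a' ∈ S, ∀ b' ∈ S, a + b + j = a' + b' + i →
      F a a' b' b ≤ G a a' b' b) :
    Zsum S i j F ≤ Zsum S i j G := by
  unfold Zsum
  apply sum_le_sum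
  intro a ha
  apply sum_le_sum
  intro b hb
  apply sum_le_sum
  intro a' ha'
  apply sum_le_sum
  intro b' hb'
  split_ifs with hc
  · exact h a ha b hb a' ha' b' hb' hc
  · exact le_rfl

lemma Zsum_FF (S : Finset ℕ) (hS : ∀ a ∈ S, 1 ≤ a) (i j : ℕ) :
    Zsum S i j FF = (1561 / 2) * Zsum S i j (fun a a' b' b => 1 / ((a + a' + b + b') / 2))
      + Zsum S i j Err := by
  have h1 : 4 * Zsum S i j FF = Zsum S i j (fun a a' b' b =>
      FF a a' b' b + FF b a' b' a + FF a b' a' b + FF b b' a' a) := by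
    have e1 := Zsum_swap1 S i j FF
    have e2 := Zsum_swap2 S i j FF
    have e3 := Zsum_swap2 S i j (fun a a' b' b => FF b a' b' a)
    rw [Zsum_add S i j (fun a a' b' b => FF a a' b' b + FF b a' b' a + FF a b' a' b)
      (fun a a' b' b => FF b b' a' a),
      Zsum_add S i j (fun a a' b' b => FF a a' b' b + FF b a' b' a)
      (fun a a' b' b => FF a b' a' b),
      Zsum_add S i j (fun a a' b' b => FF a a' b' b) (fun a a' b' b => FF b a' b' a)]
    rw [e1, e2, e3, e1]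
    ring
  have h2 : Zsum S i j (fun a a' b' b =>
      FF a a' b' b + FF b a' b' a + FF a b' a' b + FF b b' a' a)
      = 4 * ((1561 / 2) * Zsum S i j (fun a a' b' b => 1 / ((a + a' + b + b') / 2))
      + Zsum S i j Err) := by
    rw [← Zsum_const_mul, ← Zsum_add, ← Zsum_const_mul]
    apply Zsum_congr
    intro a ha b _ a' _ b' _ _
    have : (1:ℝ) ≤ a := by exact_mod_cast hS a ha
    rw [symm_identity (by positivity)]
    ring
  linarith

/-- representation function of a finite set -/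
noncomputable def rr (S : Finset ℕ) (n : ℕ) : ℝ := (#{p ∈ S ×ˢ S | p.1 + p.2 = n} : ℕ)

lemma sum_pairs (S : Finset ℕ) (N : ℕ) (hS : ∀ a ∈ S, 1 ≤ a) (hSN : ∀ a ∈ S, a ≤ N)
    (g : ℕ → ℝ) :
    ∑ a ∈ S, ∑ b ∈ S, g (a + b) = ∑ n ∈ Ico 1 (2 * N + 1), rr S n * g n := by
  rw [← sum_product' (f := fun a b => g (a + b))]
  rw [← sum_fiberwise_of_maps_to (t := Ico 1 (2 * N + 1)) (g := fun p : ℕ × ℕ => p.1 + p.2)]
  · apply sum_congr rfl
    intro n _
    rw [sum_congr rfl (g := fun _ => g n)]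
    · rw [sum_const, nsmul_eq_mul]
      rfl
    · intro p hp
      rw [(Finset.mem_filter.mp hp).2]
  · intro p hp
    rw [Finset.mem_product] at hp
    have h1 := hS _ hp.1
    have h2 := hSN _ hp.1
    have h3 := hSN _ hp.2
    rw [Finset.mem_Ico]
    omega

lemma Zsum_pairs (S : Finset ℕ) (N : ℕ) (hS : ∀ a ∈ S, 1 ≤ a) (hSN : ∀ a ∈ S, a ≤ N)
    (i j : ℕ) (g : ℝ → ℝ → ℝ) :
    Zsum S i j (fun a a' b' b => g (a + b) (a' + b'))
      = ∑ n ∈ Ico 1 (2 * N + 1), ∑ n' ∈ Ico 1 (2 * N + 1),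
          (if n + j = n' + i then rr S n * rr S n' * g n n' else 0) := by
  unfold Zsum
  have h1 : ∀ a b : ℕ, ∑ a' ∈ S, ∑ b' ∈ S,
      (if a + b + j = a' + b' + i then g (a + b) (a' + b') else 0)
      = (fun n : ℕ => ∑ n' ∈ Ico 1 (2 * N + 1), rr S n' *
        (if n + j = n' + i then g n n' else 0)) (a + b) := by
    intro a b
    have := sum_pairs S N hS hSN (fun n' : ℕ => if a + b + j = n' + i then
      g (a + b) n' else 0)
    simp only
    push_cast at this ⊢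
    exact this
  simp_rw [h1]
  rw [sum_pairs S N hS hSN (fun n : ℕ => ∑ n' ∈ Ico 1 (2 * N + 1), rr S n' *
        (if n + j = n' + i then g n n' else 0))]
  apply sum_congr rfl
  intro n _
  rw [mul_sum]
  apply sum_congr rfl
  intro n' _
  split_ifs
  · ring
  · ring

end Pool.Agent.MP_eaae5b_nt
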