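import Pool.Agent.MP_eaae5b_nt.Combine

open Finset MeasureTheory

namespace Pool.Agent.MP_eaae5b_nt

lemma rr_nonneg (S : Finset ℕ) (n : ℕ) : 0 ≤ rr S n := by
  unfold rr
  positivity

lemma neg_Zsum_Err_le (S : Finset ℕ) (N q i j : ℕ) (hS : ∀ a ∈ S, 1 ≤ a)
    (hSN : ∀ a ∈ S, a ≤ N) (hi : i < q) (hj : j < q) (B : ℝ) (hB : ∀ n, rr S n ≤ B) :
    -(8840 * (q:ℝ) ^ 2 * B ^ 2) ≤ Zsum S i j Err := by
  have hB0 : 0 ≤ B := le_trans (rr_nonneg S 0) (hB 0)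
  have hq1 : (1:ℝ) ≤ q := by
    have : 1 ≤ q := by omega
    exact_mod_cast this
  have h1 : Zsum S i j (fun a a' b' b => -1 * (4420 * (q:ℝ) ^ 2 / (a + b) ^ 2))
      ≤ Zsum S i j Err := by
    apply Zsum_le
    intro a ha b hb a' ha' b' hb' hc
    have e1 : (1:ℝ) ≤ a := by exact_mod_cast hS a ha
    have e2 : (1:ℝ) ≤ b := by exact_mod_cast hS b hb
    have e3 : (1:ℝ) ≤ a' := by exact_mod_cast hS a' ha'
    have e4 : (1:ℝ) ≤ b' := by exact_mod_cast hS b' hb'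
    have hcr : (a:ℝ) + b + j = a' + b' + i := by exact_mod_cast hc
    have hi' : (i:ℝ) ≤ q := by exact_mod_cast hi.le
    have hj' : (j:ℝ) ≤ q := by exact_mod_cast hj.le
    have hi0 : (0:ℝ) ≤ i := Nat.cast_nonneg i
    have hj0 : (0:ℝ) ≤ j := Nat.cast_nonneg j
    have h := abs_Err_le e1 e3 e2 e4 hq1 (by
      rw [abs_le]
      constructor <;> linarith)
    rw [abs_le] at h
    linarith [h.1]
  have h2 := Zsum_const_mul S i j (-1) (fun a a' b' b => 4420 * (q:ℝ) ^ 2 / (a + b) ^ 2)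
  have h3 := Zsum_pairs S N hS hSN i j (fun x y => 4420 * (q:ℝ) ^ 2 / x ^ 2)
  have h4 : ∑ n ∈ Ico 1 (2 * N + 1), ∑ n' ∈ Ico 1 (2 * N + 1),
          (if n + j = n' + i then rr S n * rr S n' * (4420 * (q:ℝ) ^ 2 / (n:ℝ) ^ 2) else 0)
      ≤ 8840 * (q:ℝ) ^ 2 * B ^ 2 := by
    calc _ ≤ ∑ n ∈ Ico 1 (2 * N + 1), (B ^ 2 * (4420 * (q:ℝ) ^ 2)) * ((n:ℝ) ^ 2)⁻¹ := by
          apply sum_le_sum
          intro n _
          calc ∑ n' ∈ Ico 1 (2 * N + 1),
                (if n + j = n' + i then rr S n * rr S n' * (4420 * (q:ℝ) ^ 2 / (n:ℝ) ^ 2) else 0)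
              ≤ ∑ n' ∈ Ico 1 (2 * N + 1), (if n' = n + j - i then
                  (B ^ 2 * (4420 * (q:ℝ) ^ 2)) * ((n:ℝ) ^ 2)⁻¹ else 0) := by
                apply sum_le_sum
                intro n' _
                by_cases hc : n + j = n' + i
                · rw [if_pos hc, if_pos (by omega)]
                  rw [div_eq_mul_inv]
                  have e1 : rr S n * rr S n' ≤ B ^ 2 := by
                    rw [pow_two]
                    exact mul_le_mul (hB n) (hB n') (rr_nonneg S n') hB0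
                  calc rr S n * rr S n' * (4420 * (q:ℝ) ^ 2 * ((n:ℝ) ^ 2)⁻¹)
                      ≤ B ^ 2 * (4420 * (q:ℝ) ^ 2 * ((n:ℝ) ^ 2)⁻¹) := by gcongr
                    _ = _ := by ring
                · rw [if_neg hc]
                  split_ifs
                  · positivity
                  · exact le_rfl
            _ ≤ _ := by
                rw [sum_ite_eq']
                split_ifs
                · exact le_rfl
                · positivity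
      _ = (B ^ 2 * (4420 * (q:ℝ) ^ 2)) * ∑ n ∈ Ico 1 (2 * N + 1), ((n:ℝ) ^ 2)⁻¹ := by
          rw [mul_sum]
      _ ≤ (B ^ 2 * (4420 * (q:ℝ) ^ 2)) * 2 := by
          apply mul_le_mul_of_nonneg_left _ (by positivity)
          exact sum_Ico_inv_sq_le _ _ le_rfl
      _ = _ := by ring
  rw [h2] at h1
  have h3' : Zsum S i j (fun a a' b' b => 4420 * (q:ℝ) ^ 2 / (a + b) ^ 2)
      = ∑ n ∈ Ico 1 (2 * N + 1), ∑ n' ∈ Ico 1 (2 * N + 1),
          (if n + j = n' + i then rr S n * rr S n' * (4420 * (q:ℝ) ^ 2 / (n:ℝ) ^ 2) else 0) := h3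
  rw [h3'] at h1
  linarith

lemma Zsum_inv (S : Finset ℕ) (N i j : ℕ) (hS : ∀ a ∈ S, 1 ≤ a) (hSN : ∀ a ∈ S, a ≤ N) :
    Zsum S i j (fun a a' b' b => 1 / ((a + a' + b + b') / 2))
      = ∑ n ∈ Ico 1 (2 * N + 1), ∑ n' ∈ Ico 1 (2 * N + 1),
          (if n + j = n' + i then rr S n * rr S n' * (2 / ((n:ℝ) + n')) else 0) := by
  rw [← Zsum_pairs S N hS hSN i j (fun x y => 2 / (x + y))]
  apply Zsum_congr
  intro a ha b _ a' _ b' _ _
  have : (1:ℝ) ≤ a := by exact_mod_cast hS a ha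
  have h1 : (0:ℝ) < a + a' + b + b' := by positivity
  have h2 : (0:ℝ) < a + b + (a' + b') := by positivity
  field_simp
  ring

lemma Zsum_zero_inv (S : Finset ℕ) (N : ℕ) (hS : ∀ a ∈ S, 1 ≤ a) (hSN : ∀ a ∈ S, a ≤ N) :
    Zsum S 0 0 (fun a a' b' b => 1 / ((a + a' + b + b') / 2))
      = ∑ n ∈ Ico 1 (2 * N + 1), rr S n ^ 2 / n := by
  rw [Zsum_inv S N 0 0 hS hSN]
  apply sum_congr rfl
  intro n hn
  rw [Finset.mem_Ico] at hn
  have hn0 : (0:ℝ) < n := by exact_mod_cast hn.1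
  simp only [add_zero]
  rw [sum_ite_eq, if_pos (by rw [Finset.mem_Ico]; exact hn)]
  field_simp
  ring

lemma Zsum_zero_Err (S : Finset ℕ) : Zsum S 0 0 Err = 0 := by
  have h := Zsum_congr S 0 0 Err (fun _ _ _ _ => 0) (by
    intro a _ b _ a' _ b' _ hc
    apply Err_zero
    have : (a:ℝ) + b + (0:ℕ) = a' + b' + (0:ℕ) := by exact_mod_cast hc
    push_cast at this
    linarith)
  rw [h]
  unfold Zsum
  simp

/-- the integrated t-channel inequality -/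
theorem tchannel_integrated (S : Finset ℕ) (hS : ∀ a ∈ S, 1 ≤ a) (m : ℕ) (hm : 0 < m) :
    (∫ τ in Set.Ioi (0:ℝ), G0 S τ ^ 2) - (2 / (m:ℝ)) * Zsum S 0 0 FF
    ≤ Zsum S 0 0 FF - (1 / ((m ^ 2 : ℕ) : ℝ) ^ 2) *
        ∑ i ∈ range (m ^ 2), ∑ j ∈ range (m ^ 2), Zsum S i j FF := by
  set I := S ×ˢ S with hI
  set f : ℕ × ℕ → ℤ := fun x => (x.1:ℤ) - x.2 with hf
  -- the forms
  have hform : ∀ i j : ℕ, ∫ τ in Set.Ioi (0:ℝ), (∑ x ∈ I, ∑ y ∈ I,
      if f x + j = f y + i then uu τ x.1 x.2 * uu τ y.1 y.2 else 0) = Zsum S i j FF := by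
    intro i j
    rw [integral_form S hS (fun x y => f x + j = f y + i)]
    exact form_eq_Zsum S i j FF
  have hformi : ∀ i j : ℕ, Integrable (fun τ : ℝ => (∑ x ∈ I, ∑ y ∈ I,
      if f x + j = f y + i then uu τ x.1 x.2 * uu τ y.1 y.2 else 0))
      (volume.restrict (Set.Ioi 0)) := by
    intro i j
    exact integrable_form S hS (fun x y => f x + j = f y + i)
  have hform0 : ∀ τ : ℝ, (∑ x ∈ I, ∑ y ∈ I,
      if f x = f y then uu τ x.1 x.2 * uu τ y.1 y.2 else 0)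
      = ∑ x ∈ I, ∑ y ∈ I,
      if f x + (0:ℕ) = f y + (0:ℕ) then uu τ x.1 x.2 * uu τ y.1 y.2 else 0 := by
    intro τ
    simp
  have hG : ∀ τ : ℝ, (∑ x ∈ I, if f x = 0 then uu τ x.1 x.2 else 0) = G0 S τ := by
    intro τ
    unfold G0
    rw [hI, sum_product]
    apply sum_congr rfl
    intro a ha
    rw [sum_eq_single a]
    · simp [hf]
    · intro b _ hb
      have : ¬ ((a:ℤ) - b = 0) := by
        intro h
        apply hb
        omega
      simp [hf, this]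
    · intro h
      exact absurd ha h
  have hpt : ∀ τ : ℝ, G0 S τ ^ 2 - (2 / (m:ℝ)) * (∑ x ∈ I, ∑ y ∈ I,
        if f x + (0:ℕ) = f y + (0:ℕ) then uu τ x.1 x.2 * uu τ y.1 y.2 else 0)
      ≤ (∑ x ∈ I, ∑ y ∈ I,
        if f x + (0:ℕ) = f y + (0:ℕ) then uu τ x.1 x.2 * uu τ y.1 y.2 else 0)
        - (1 / ((m ^ 2 : ℕ) : ℝ) ^ 2) * ∑ i ∈ range (m ^ 2), ∑ j ∈ range (m ^ 2),
          ∑ x ∈ I, ∑ y ∈ I,
            (if f x + j = f y + i then uu τ x.1 x.2 * uu τ y.1 y.2 else 0) := by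
    intro τ
    have := tchannel I f (fun x => uu τ x.1 x.2) m hm
    rw [hG τ, hform0 τ] at this
    exact this
  have hi1 : Integrable (fun τ : ℝ => G0 S τ ^ 2 - (2 / (m:ℝ)) * (∑ x ∈ I, ∑ y ∈ I,
        if f x + (0:ℕ) = f y + (0:ℕ) then uu τ x.1 x.2 * uu τ y.1 y.2 else 0))
        (volume.restrict (Set.Ioi 0)) :=
    (integrableOn_G0_sq S hS).sub ((hformi 0 0).const_mul _)
  have hi2 : Integrable (fun τ : ℝ => ∑ i ∈ range (m ^ 2), ∑ j ∈ range (m ^ 2),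
          ∑ x ∈ I, ∑ y ∈ I,
            (if f x + j = f y + i then uu τ x.1 x.2 * uu τ y.1 y.2 else 0))
        (volume.restrict (Set.Ioi 0)) := by
    apply integrable_finsetSum
    intro i _
    apply integrable_finsetSum
    intro j _
    exact hformi i j
  have hi3 := (hformi 0 0).sub (hi2.const_mul (1 / ((m ^ 2 : ℕ) : ℝ) ^ 2))
  have h := integral_mono hi1 hi3 hpt
  have e1 : ∫ τ in Set.Ioi (0:ℝ), (G0 S τ ^ 2 - (2 / (m:ℝ)) * (∑ x ∈ I, ∑ y ∈ I,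
        if f x + (0:ℕ) = f y + (0:ℕ) then uu τ x.1 x.2 * uu τ y.1 y.2 else 0))
      = (∫ τ in Set.Ioi (0:ℝ), G0 S τ ^ 2) - (2 / (m:ℝ)) * Zsum S 0 0 FF := by
    rw [integral_sub (integrableOn_G0_sq S hS) ((hformi 0 0).const_mul _), integral_const_mul,
      hform 0 0]
  have e2 : ∫ τ in Set.Ioi (0:ℝ), (∑ i ∈ range (m ^ 2), ∑ j ∈ range (m ^ 2),
          ∑ x ∈ I, ∑ y ∈ I,
            (if f x + j = f y + i then uu τ x.1 x.2 * uu τ y.1 y.2 else 0))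
      = ∑ i ∈ range (m ^ 2), ∑ j ∈ range (m ^ 2), Zsum S i j FF := by
    rw [integral_finsetSum]
    · apply sum_congr rfl
      intro i _
      rw [integral_finsetSum]
      · apply sum_congr rfl
        intro j _
        exact hform i j
      · intro j _
        exact hformi i j
    · intro i _
      apply integrable_finsetSum
      intro j _
      exact hformi i j
  have e3 : ∫ τ in Set.Ioi (0:ℝ), ((∑ x ∈ I, ∑ y ∈ I,
        if f x + (0:ℕ) = f y + (0:ℕ) then uu τ x.1 x.2 * uu τ y.1 y.2 else 0)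
        - (1 / ((m ^ 2 : ℕ) : ℝ) ^ 2) * ∑ i ∈ range (m ^ 2), ∑ j ∈ range (m ^ 2),
          ∑ x ∈ I, ∑ y ∈ I,
            (if f x + j = f y + i then uu τ x.1 x.2 * uu τ y.1 y.2 else 0))
      = Zsum S 0 0 FF - (1 / ((m ^ 2 : ℕ) : ℝ) ^ 2) *
        ∑ i ∈ range (m ^ 2), ∑ j ∈ range (m ^ 2), Zsum S i j FF := by
    rw [integral_sub (hformi 0 0) (hi2.const_mul _), integral_const_mul, e2, hform 0 0]
  calc _ = _ := e1.symm
    _ ≤ _ := h
    _ = _ := e3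

theorem finite_ineq (S : Finset ℕ) (N m n₁ k : ℕ) (K B : ℝ)
    (hS : ∀ a ∈ S, 1 ≤ a) (hSN : ∀ a ∈ S, a ≤ N) (hm : 0 < m) (hn₁ : 1 ≤ n₁)
    (hN : n₁ + 2 * m ^ 2 ≤ N) (hB : ∀ n, rr S n ≤ B)
    (hgood : ∀ n, n₁ ≤ n → n ≤ N → (k:ℝ) ≤ rr S n ∧ rr S n ≤ K) :
    841 * k * Real.log N - 1682 * k * (n₁ + 1) - 72384 * Real.sqrt k
      ≤ (1561 / 2) * (((K - k) / 2) ^ 2 * (1 + Real.log N)
          + (B ^ 2 * (n₁ + (m ^ 2 : ℕ)) + 3 * B ^ 2 + 2 * (m ^ 2 : ℕ) * K ^ 2))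
        + (1561 / m) * (B ^ 2 * (1 + Real.log (2 * N))) + 8840 * ((m ^ 2 : ℕ) : ℝ) ^ 2 * B ^ 2 := by
  have hB0 : 0 ≤ B := le_trans (rr_nonneg S 0) (hB 0)
  have hm' : (0:ℝ) < m := by exact_mod_cast hm
  set q := m ^ 2 with hq
  have hq0 : 0 < q := by positivity
  have hq' : (0:ℝ) < q := by exact_mod_cast hq0
  have hNpos : 0 < N := by omega
  have hvac := vacuum S hS N k n₁ hNpos (by
    intro n hn
    rw [Finset.mem_Ico] at hn
    have := (hgood n hn.1 hn.2.le).1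
    unfold rr at this
    exact_mod_cast this)
  have ht := tchannel_integrated S hS m hm
  rw [← hq] at ht
  have hs := schannel (rr S) q N n₁ k K B hq0 hn₁ (rr_nonneg S) hB hgood hN
  -- rewrite Zsum FF
  have hz0 : Zsum S 0 0 FF = (1561 / 2) * ∑ n ∈ Ico 1 (2 * N + 1), rr S n ^ 2 / n := by
    rw [Zsum_FF S hS, Zsum_zero_inv S N hS hSN, Zsum_zero_Err]
    ring
  have hzij : (1561 / 2) * ∑ i ∈ range q, ∑ j ∈ range q,
          ∑ n ∈ Ico 1 (2 * N + 1), ∑ n' ∈ Ico 1 (2 * N + 1),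
            (if n + j = n' + i then rr S n * rr S n' * (2 / ((n:ℝ) + n')) else 0)
        - (q:ℝ) ^ 2 * (8840 * (q:ℝ) ^ 2 * B ^ 2)
      ≤ ∑ i ∈ range q, ∑ j ∈ range q, Zsum S i j FF := by
    have h1 : ∑ i ∈ range q, ∑ j ∈ range q, ((1561 / 2) *
          (∑ n ∈ Ico 1 (2 * N + 1), ∑ n' ∈ Ico 1 (2 * N + 1),
            (if n + j = n' + i then rr S n * rr S n' * (2 / ((n:ℝ) + n')) else 0))
            - (8840 * (q:ℝ) ^ 2 * B ^ 2))
        ≤ ∑ i ∈ range q, ∑ j ∈ range q, Zsum S i j FF := by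
      apply sum_le_sum
      intro i hi
      apply sum_le_sum
      intro j hj
      rw [Zsum_FF S hS, Zsum_inv S N i j hS hSN]
      have := neg_Zsum_Err_le S N q i j hS hSN (mem_range.mp hi) (mem_range.mp hj) B hB
      linarith
    refine le_trans (le_of_eq ?_) h1
    simp_rw [sum_sub_distrib, mul_sum]
    simp
    ring
  have hH : ∑ n ∈ Ico 1 (2 * N + 1), rr S n ^ 2 / n ≤ B ^ 2 * (1 + Real.log (2 * N)) := by
    calc ∑ n ∈ Ico 1 (2 * N + 1), rr S n ^ 2 / n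
        ≤ ∑ n ∈ Ico 1 (2 * N + 1), B ^ 2 * ((n:ℝ))⁻¹ := by
          apply sum_le_sum
          intro n _
          rw [div_eq_mul_inv]
          apply mul_le_mul_of_nonneg_right _ (by positivity)
          exact pow_le_pow_left₀ (rr_nonneg S n) (hB n) 2
      _ = B ^ 2 * ∑ n ∈ Ico 1 (2 * N + 1), ((n:ℝ))⁻¹ := by rw [mul_sum]
      _ ≤ _ := by
          apply mul_le_mul_of_nonneg_left _ (by positivity)
          have := sum_Ico_inv_le 1 (2 * N + 1) (2 * N) le_rfl le_rfl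
          push_cast at this
          exact this
  rw [hz0] at ht
  set H := ∑ n ∈ Ico 1 (2 * N + 1), rr S n ^ 2 / n with hHdef
  set Z := ∑ i ∈ range q, ∑ j ∈ range q,
          ∑ n ∈ Ico 1 (2 * N + 1), ∑ n' ∈ Ico 1 (2 * N + 1),
            (if n + j = n' + i then rr S n * rr S n' * (2 / ((n:ℝ) + n')) else 0) with hZ
  set W := ∑ i ∈ range q, ∑ j ∈ range q, Zsum S i j FF with hW
  have h1 : (1 / (q:ℝ) ^ 2) * ((1561 / 2) * Z - (q:ℝ) ^ 2 * (8840 * (q:ℝ) ^ 2 * B ^ 2))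
      ≤ (1 / (q:ℝ) ^ 2) * W := by
    apply mul_le_mul_of_nonneg_left hzij (by positivity)
  have h2 : (1 / (q:ℝ) ^ 2) * ((1561 / 2) * Z - (q:ℝ) ^ 2 * (8840 * (q:ℝ) ^ 2 * B ^ 2))
      = (1561 / 2) * ((1 / (q:ℝ) ^ 2) * Z) - 8840 * (q:ℝ) ^ 2 * B ^ 2 := by
    field_simp
  rw [h2] at h1
  have h3 : (2 / (m:ℝ)) * ((1561 / 2) * H) ≤ (1561 / m) * (B ^ 2 * (1 + Real.log (2 * N))) := by
    have e : (2 / (m:ℝ)) * ((1561 / 2) * H) = (1561 / m) * H := by ring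
    rw [e]
    apply mul_le_mul_of_nonneg_left hH (by positivity)
  linarith

end Pool.Agent.MP_eaae5b_nt
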