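import Mathlib

open Finset MeasureTheory Set

namespace Pool.Agent.MP_eaae5b_nt

lemma integrable_pow_exp (j : ℕ) {σ : ℝ} (hσ : 0 < σ) :
    IntegrableOn (fun τ : ℝ => τ ^ j * Real.exp (-(σ * τ))) (Ioi 0) := by
  have h := integrableOn_rpow_mul_exp_neg_mul_rpow (p := 1) (s := (j:ℝ)) (b := σ)
    (by have : (0:ℝ) ≤ j := Nat.cast_nonneg j
        linarith) one_pos hσ
  refine h.congr_fun ?_ measurableSet_Ioi
  intro x hx
  simp

lemma integral_pow_exp (j : ℕ) {σ : ℝ} (hσ : 0 < σ) :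
    ∫ τ in Ioi (0:ℝ), τ ^ j * Real.exp (-(σ * τ)) = (j.factorial : ℝ) / σ ^ (j + 1) := by
  have h := Real.integral_rpow_mul_exp_neg_mul_Ioi (a := (j:ℝ) + 1) (r := σ) (by positivity) hσ
  have h2 : ∫ τ in Ioi (0:ℝ), τ ^ j * Real.exp (-(σ * τ))
      = ∫ t in Ioi (0:ℝ), t ^ ((j:ℝ) + 1 - 1) * Real.exp (-(σ * t)) := by
    apply setIntegral_congr_fun measurableSet_Ioi
    intro x hx
    simp
  rw [h2, h, Real.Gamma_nat_eq_factorial]
  have : (1 / σ) ^ ((j:ℝ) + 1) = (1 / σ) ^ (j + 1) := by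
    rw [← Real.rpow_natCast]
    push_cast
    rfl
  rw [this]
  rw [div_pow, one_pow]
  field_simp

/-- polynomial part of the test function -/
noncomputable def pol (τ a a' : ℝ) : ℝ :=
  21 + 7 * (τ * a) - 4 * τ ^ 2 * (a * a') + 4 * τ ^ 3 * (a ^ 2 * a')

/-- the test function -/
noncomputable def uu (τ a a' : ℝ) : ℝ := pol τ a a' * Real.exp (-(τ * (a + a') / 2))

/-- the integrated kernel -/
noncomputable def FF (a a' b' b : ℝ) : ℝ :=
  441 / ((a + a' + b + b') / 2) + 147 * (a + b') / ((a + a' + b + b') / 2) ^ 2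
  + 2 * (-84 * (a * a' + b * b') + 49 * a * b') / ((a + a' + b + b') / 2) ^ 3
  + 6 * (84 * (a ^ 2 * a' + b' ^ 2 * b) - 28 * (a * b * b' + a * a' * b'))
      / ((a + a' + b + b') / 2) ^ 4
  + 24 * (28 * (a * b * b' ^ 2 + a ^ 2 * a' * b') + 16 * a * a' * b * b')
      / ((a + a' + b + b') / 2) ^ 5
  + 120 * (-16 * a * a' * b * b' * (a + b')) / ((a + a' + b + b') / 2) ^ 6
  + 720 * (16 * a ^ 2 * a' * b' ^ 2 * b) / ((a + a' + b + b') / 2) ^ 7

lemma uu_mul (τ a a' b' b : ℝ) : uu τ a a' * uu τ b' b =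
    441 * (τ ^ 0 * Real.exp (-(((a + a' + b + b') / 2) * τ)))
    + (147 * (a + b')) * (τ ^ 1 * Real.exp (-(((a + a' + b + b') / 2) * τ)))
    + (-84 * (a * a' + b * b') + 49 * a * b') * (τ ^ 2 * Real.exp (-(((a + a' + b + b') / 2) * τ)))
    + (84 * (a ^ 2 * a' + b' ^ 2 * b) - 28 * (a * b * b' + a * a' * b'))
       * (τ ^ 3 * Real.exp (-(((a + a' + b + b') / 2) * τ)))
    + (28 * (a * b * b' ^ 2 + a ^ 2 * a' * b') + 16 * a * a' * b * b')
       * (τ ^ 4 * Real.exp (-(((a + a' + b + b') / 2) * τ)))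
    + (-16 * a * a' * b * b' * (a + b')) * (τ ^ 5 * Real.exp (-(((a + a' + b + b') / 2) * τ)))
    + (16 * a ^ 2 * a' * b' ^ 2 * b) * (τ ^ 6 * Real.exp (-(((a + a' + b + b') / 2) * τ))) := by
  unfold uu pol
  have h : Real.exp (-(((a + a' + b + b') / 2) * τ))
      = Real.exp (-(τ * (a + a') / 2)) * Real.exp (-(τ * (b' + b) / 2)) := by
    rw [← Real.exp_add]
    congr 1
    ring
  rw [h]
  ring

lemma integrable_uu_mul {a a' b' b : ℝ} (hσ : 0 < a + a' + b + b') :
    IntegrableOn (fun τ => uu τ a a' * uu τ b' b) (Ioi 0) := by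
  have hs : 0 < (a + a' + b + b') / 2 := by linarith
  simp_rw [uu_mul]
  have h := fun j => integrable_pow_exp j hs
  exact (((((((h 0).const_mul _).add ((h 1).const_mul _)).add ((h 2).const_mul _)).add
    ((h 3).const_mul _)).add ((h 4).const_mul _)).add ((h 5).const_mul _)).add ((h 6).const_mul _)

lemma integral_uu_mul {a a' b' b : ℝ} (hσ : 0 < a + a' + b + b') :
    ∫ τ in Ioi (0:ℝ), uu τ a a' * uu τ b' b = FF a a' b' b := by
  have hs : 0 < (a + a' + b + b') / 2 := by linarith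
  simp_rw [uu_mul]
  have h := fun j => integrable_pow_exp j hs
  have hh := fun j => integral_pow_exp j hs
  rw [integral_add, integral_add, integral_add, integral_add, integral_add, integral_add]
  · simp_rw [integral_const_mul, hh]
    unfold FF
    generalize (a + a' + b + b') / 2 = s
    simp only [Nat.factorial]
    push_cast
    ring
  all_goals first
    | exact (h _).const_mul _
    | exact ((h 0).const_mul _).add ((h 1).const_mul _)
    | exact (((h 0).const_mul _).add ((h 1).const_mul _)).add ((h 2).const_mul _)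
    | exact ((((h 0).const_mul _).add ((h 1).const_mul _)).add ((h 2).const_mul _)).add
        ((h 3).const_mul _)
    | exact (((((h 0).const_mul _).add ((h 1).const_mul _)).add ((h 2).const_mul _)).add
        ((h 3).const_mul _)).add ((h 4).const_mul _)
    | exact ((((((h 0).const_mul _).add ((h 1).const_mul _)).add ((h 2).const_mul _)).add
        ((h 3).const_mul _)).add ((h 4).const_mul _)).add ((h 5).const_mul _)

/-- the symmetrized kernel, error part -/
noncomputable def Err (a a' b' b : ℝ) : ℝ :=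
  - (385 / 2) * ((a' + b' - a - b) ^ 2 / 4) / ((a + a' + b + b') / 2) ^ 3
  - 168 * (a' + b' - a - b) * ((a' * b') * (a + b) - (a * b) * (a' + b'))
      / ((a + a' + b + b') / 2) ^ 5
  - 720 * (a' + b' - a - b) ^ 2 * (a * b) * (a' * b') / ((a + a' + b + b') / 2) ^ 7

lemma symm_identity {a a' b' b : ℝ} (hσ : 0 < a + a' + b + b') :
    FF a a' b' b + FF b a' b' a + FF a b' a' b + FF b b' a' a
      = 4 * ((1561 / 2) / ((a + a' + b + b') / 2) + Err a a' b' b) := by
  have hs : (a + a' + b + b') / 2 ≠ 0 := by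
    have : 0 < (a + a' + b + b') / 2 := by linarith
    exact this.ne'
  unfold FF Err
  have e1 : b + a' + a + b' = a + a' + b + b' := by ring
  have e2 : a + b' + b + a' = a + a' + b + b' := by ring
  have e3 : b + b' + a + a' = a + a' + b + b' := by ring
  rw [e1, e2, e3]
  obtain ⟨s, hsdef⟩ : ∃ s, s = (a + a' + b + b') / 2 := ⟨_, rfl⟩
  rw [← hsdef] at hs ⊢
  have hb : b' = 2 * s - a - a' - b := by linarith
  subst hb
  field_simp
  ring

end Pool.Agent.MP_eaae5b_nt
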