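import Mathlib

open Finset

namespace Pool.Agent.MP_eaae5b_nt

/-- variance identity -/
lemma var_identity (q : ℕ) (hq : 0 < q) (g : ℕ → ℝ) :
    (1 / (q:ℝ)) * ∑ i ∈ range q, g i ^ 2 - ((1 / (q:ℝ)) * ∑ i ∈ range q, g i) ^ 2
      = (1 / (q:ℝ)) * ∑ i ∈ range q, (g i - (1 / (q:ℝ)) * ∑ j ∈ range q, g j) ^ 2 := by
  have hq' : (q:ℝ) ≠ 0 := by positivity
  set Y := (1 / (q:ℝ)) * ∑ j ∈ range q, g j with hY
  have h1 : ∑ i ∈ range q, g i = q * Y := by rw [hY]; field_simp
  have h2 : ∑ i ∈ range q, (g i - Y) ^ 2 = ∑ i ∈ range q, g i ^ 2 - 2 * Y * ∑ i ∈ range q, g i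
      + q * Y ^ 2 := by
    rw [mul_sum, ← sum_sub_distrib]
    have : (q:ℝ) * Y ^ 2 = ∑ i ∈ range q, Y ^ 2 := by simp
    rw [this, ← sum_add_distrib]
    apply sum_congr rfl
    intro i _
    ring
  rw [h2, h1]
  field_simp
  ring

lemma sum_indicator {ι : Type*} (I : Finset ι) (f : ι → ℤ) (u : ι → ℝ) (D : Finset ℤ)
    (i j : ℕ) (hD : ∀ x ∈ I, f x - i ∈ D) :
    ∑ d ∈ D, (∑ x ∈ I, if f x = d + i then u x else 0) * (∑ x ∈ I, if f x = d + j then u x else 0)
      = ∑ x ∈ I, ∑ y ∈ I, (if f x + j = f y + i then u x * u y else 0) := by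
  simp_rw [sum_mul_sum]
  rw [sum_comm]
  apply sum_congr rfl
  intro x hx
  rw [sum_comm]
  apply sum_congr rfl
  intro y hy
  rw [sum_eq_single (f x - i)]
  · by_cases h : f x + j = f y + i
    · have : f y = f x - i + j := by linarith
      simp [this]
      ring_nf
      simp
    · have : ¬ (f y = f x - i + j) := by
        intro h'
        apply h
        linarith
      simp [this, h]
  · intro d _ hd
    have : ¬ (f x = d + i) := by
      intro h
      apply hd
      linarith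
    simp [this]
  · intro h
    exact absurd (hD x hx) h

theorem tchannel {ι : Type*} (I : Finset ι) (f : ι → ℤ) (u : ι → ℝ) (m : ℕ) (hm : 0 < m) :
    (∑ x ∈ I, if f x = 0 then u x else 0) ^ 2
      - (2 / (m:ℝ)) * (∑ x ∈ I, ∑ y ∈ I, if f x = f y then u x * u y else 0)
    ≤ (∑ x ∈ I, ∑ y ∈ I, if f x = f y then u x * u y else 0)
      - (1 / ((m ^ 2 : ℕ) : ℝ) ^ 2) * ∑ i ∈ range (m ^ 2), ∑ j ∈ range (m ^ 2),
          ∑ x ∈ I, ∑ y ∈ I, (if f x + j = f y + i then u x * u y else 0) := by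
  classical
  set q := m ^ 2 with hqdef
  have hq : 0 < q := by positivity
  have hq' : (0:ℝ) < q := by exact_mod_cast hq
  have hqm : (q:ℝ) = (m:ℝ) ^ 2 := by rw [hqdef]; push_cast; ring
  have hm' : (0:ℝ) < m := by exact_mod_cast hm
  -- the finite set of shifts
  obtain ⟨L, hL⟩ : ∃ L : ℕ, ∀ x ∈ I, |f x| ≤ L := by
    refine ⟨∑ x ∈ I, (f x).natAbs, ?_⟩
    intro x hx
    have := Finset.single_le_sum (f := fun x => (f x).natAbs) (fun i _ => Nat.zero_le _) hx
    have h2 : |f x| = ((f x).natAbs : ℤ) := Int.abs_eq_natAbs _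
    rw [h2]
    exact_mod_cast this
  set D : Finset ℤ := Finset.Icc (-(L:ℤ) - q) (L + q) with hDdef
  have hD : ∀ i < q, ∀ x ∈ I, f x - i ∈ D := by
    intro i hi x hx
    have := hL x hx
    rw [abs_le] at this
    rw [hDdef, Finset.mem_Icc]
    constructor <;> omega
  set G : ℤ → ℝ := fun d => ∑ x ∈ I, if f x = d then u x else 0 with hG
  set H := ∑ x ∈ I, ∑ y ∈ I, if f x = f y then u x * u y else 0 with hH
  have hGG : ∀ i < q, ∀ j < q, ∑ d ∈ D, G (d + i) * G (d + j)
      = ∑ x ∈ I, ∑ y ∈ I, (if f x + j = f y + i then u x * u y else 0) := by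
    intro i hi j hj
    exact sum_indicator I f u D i j (hD i hi)
  have hGi : ∀ i < q, ∑ d ∈ D, G (d + i) ^ 2 = H := by
    intro i hi
    have := hGG i hi i hi
    simp_rw [pow_two]
    rw [this, hH]
    apply sum_congr rfl
    intro x _
    apply sum_congr rfl
    intro y _
    simp
  set Y : ℤ → ℝ := fun d => (1 / (q:ℝ)) * ∑ i ∈ range q, G (d + i) with hY
  have hYsq : (1 / (q:ℝ) ^ 2) * ∑ i ∈ range q, ∑ j ∈ range q,
          ∑ x ∈ I, ∑ y ∈ I, (if f x + j = f y + i then u x * u y else 0)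
        = ∑ d ∈ D, Y d ^ 2 := by
    have : ∀ d, Y d ^ 2 = (1 / (q:ℝ) ^ 2) * ∑ i ∈ range q, ∑ j ∈ range q, G (d + i) * G (d + j) := by
      intro d
      rw [hY]
      simp only
      rw [mul_pow, pow_two (∑ i ∈ range q, _), sum_mul_sum]
      ring
    simp_rw [this]
    rw [← mul_sum]
    congr 1
    symm
    rw [sum_comm]
    apply sum_congr rfl
    intro i hi
    rw [sum_comm]
    apply sum_congr rfl
    intro j hj
    rw [hGG i (mem_range.mp hi) j (mem_range.mp hj)]
  rw [hYsq]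
  have hHavg : H = ∑ d ∈ D, (1 / (q:ℝ)) * ∑ i ∈ range q, G (d + i) ^ 2 := by
    rw [← mul_sum, sum_comm]
    have : ∑ i ∈ range q, ∑ d ∈ D, G (d + i) ^ 2 = ∑ i ∈ range q, H := by
      apply sum_congr rfl
      intro i hi
      exact hGi i (mem_range.mp hi)
    rw [this]
    simp
    field_simp
  have hvar : H - ∑ d ∈ D, Y d ^ 2
      = ∑ d ∈ D, (1 / (q:ℝ)) * ∑ i ∈ range q, (G (d + i) - Y d) ^ 2 := by
    conv_lhs => rw [hHavg]
    rw [← sum_sub_distrib]
    apply sum_congr rfl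
    intro d _
    exact var_identity q hq (fun i => G (d + i))
  rw [hvar]
  have hG0 : (∑ x ∈ I, if f x = 0 then u x else 0) = G 0 := rfl
  rw [hG0]
  -- restrict to d = -i
  have hrestr : ∑ i ∈ range q, (1 / (q:ℝ)) * (G 0 - Y (-(i:ℤ))) ^ 2
      ≤ ∑ d ∈ D, (1 / (q:ℝ)) * ∑ i ∈ range q, (G (d + i) - Y d) ^ 2 := by
    have hinj : Set.InjOn (fun i : ℕ => -(i:ℤ)) (range q : Finset ℕ) := by
      intro a _ b _ hab
      simpa using hab
    calc ∑ i ∈ range q, (1 / (q:ℝ)) * (G 0 - Y (-(i:ℤ))) ^ 2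
        ≤ ∑ i ∈ range q, (1 / (q:ℝ)) * ∑ j ∈ range q, (G (-(i:ℤ) + j) - Y (-(i:ℤ))) ^ 2 := by
          apply sum_le_sum
          intro i hi
          apply mul_le_mul_of_nonneg_left _ (by positivity)
          have := Finset.single_le_sum (f := fun j : ℕ => (G (-(i:ℤ) + j) - Y (-(i:ℤ))) ^ 2)
            (fun j _ => sq_nonneg _) hi
          simpa using this
      _ = ∑ d ∈ (range q).image (fun i : ℕ => -(i:ℤ)),
            (1 / (q:ℝ)) * ∑ j ∈ range q, (G (d + j) - Y d) ^ 2 := by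
          rw [sum_image hinj]
      _ ≤ _ := by
          apply sum_le_sum_of_subset_of_nonneg
          · intro d hd
            rw [mem_image] at hd
            obtain ⟨i, hi, rfl⟩ := hd
            rw [mem_range] at hi
            rw [hDdef, Finset.mem_Icc]
            constructor <;> omega
          · intro d _ _
            positivity
  refine le_trans ?_ hrestr
  -- bounds
  have hH0 : G 0 ^ 2 ≤ H := by
    rw [← hGi 0 hq]
    have := Finset.single_le_sum (s := D) (a := 0) (f := fun d : ℤ => G (d + (0:ℕ)) ^ 2)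
      (fun j _ => sq_nonneg _) (by rw [hDdef, Finset.mem_Icc]; constructor <;> omega)
    simpa using this
  have hYb : ∀ i < q, Y (-(i:ℤ)) ^ 2 ≤ H / q := by
    intro i hi
    have h1 : Y (-(i:ℤ)) ^ 2 ≤ (1 / (q:ℝ)) * ∑ j ∈ range q, G (-(i:ℤ) + j) ^ 2 := by
      have := var_identity q hq (fun j => G (-(i:ℤ) + j))
      have h2 : 0 ≤ (1 / (q:ℝ)) * ∑ j ∈ range q, (G (-(i:ℤ) + j) - (1 / (q:ℝ)) * ∑ j ∈ range q, G (-(i:ℤ) + j)) ^ 2 := by
        positivity
      have h3 : Y (-(i:ℤ)) = (1 / (q:ℝ)) * ∑ j ∈ range q, G (-(i:ℤ) + j) := rfl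
      rw [h3]
      linarith
    have h2 : ∑ j ∈ range q, G (-(i:ℤ) + j) ^ 2 ≤ H := by
      rw [← hGi 0 hq]
      have hinj : Set.InjOn (fun j : ℕ => -(i:ℤ) + j) (range q : Finset ℕ) := by
        intro a _ b _ hab
        simpa using hab
      calc ∑ j ∈ range q, G (-(i:ℤ) + j) ^ 2
          = ∑ d ∈ (range q).image (fun j : ℕ => -(i:ℤ) + j), G d ^ 2 := by
            rw [sum_image hinj]
        _ ≤ ∑ d ∈ D, G d ^ 2 := by
            apply sum_le_sum_of_subset_of_nonneg
            · intro d hd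
              rw [mem_image] at hd
              obtain ⟨j, hj, rfl⟩ := hd
              rw [mem_range] at hj
              rw [hDdef, Finset.mem_Icc]
              constructor <;> omega
            · intro d _ _
              positivity
        _ = _ := by simp
    calc Y (-(i:ℤ)) ^ 2 ≤ (1 / (q:ℝ)) * ∑ j ∈ range q, G (-(i:ℤ) + j) ^ 2 := h1
      _ ≤ (1 / (q:ℝ)) * H := by
          apply mul_le_mul_of_nonneg_left h2 (by positivity)
      _ = H / q := by ring
  -- termwise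
  have hterm : ∀ i < q, G 0 ^ 2 - (2 / (m:ℝ)) * H ≤ (G 0 - Y (-(i:ℤ))) ^ 2 := by
    intro i hi
    have h1 := hYb i hi
    rw [hqm] at h1
    set y := Y (-(i:ℤ))
    set g := G 0
    -- 2 g y ≤ g^2/m + m y^2
    have h2 : 2 * g * y ≤ g ^ 2 / m + m * y ^ 2 := by
      have : 0 ≤ (g / m - y) ^ 2 * m := by positivity
      have h3 : (g / m - y) ^ 2 * m = g ^ 2 / m - 2 * g * y + m * y ^ 2 := by
        field_simp
        ring
      linarith
    have h3 : g ^ 2 / m ≤ H / m := by gcongr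
    have h4 : m * y ^ 2 ≤ H / m := by
      calc m * y ^ 2 ≤ m * (H / (m:ℝ) ^ 2) := by gcongr
        _ = H / m := by field_simp
    have h5 : (2 / (m:ℝ)) * H = H / m + H / m := by ring
    nlinarith [sq_nonneg y]
  calc G 0 ^ 2 - (2 / (m:ℝ)) * H
      = ∑ i ∈ range q, (1 / (q:ℝ)) * (G 0 ^ 2 - (2 / (m:ℝ)) * H) := by
        rw [← mul_sum]
        simp
        field_simp
    _ ≤ _ := by
        apply sum_le_sum
        intro i hi
        apply mul_le_mul_of_nonneg_left (hterm i (mem_range.mp hi)) (by positivity)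

end Pool.Agent.MP_eaae5b_nt
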